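import Pool.Agent.TH708.Dec.Defs

/-!
# Definitions: windows, boundaries, nesting of AND gates
-/

set_option autoImplicit false

namespace Pool.Agent.TH708.Tre

open Finset Pool.Agent.TH708.Dec

/-- The number of elements of `Z` that do not have the colour `c` in the colouring given by `D`
(elements of `D` have the colour `true`). -/
def err (c : Bool) (D Z : Finset ℕ) : ℕ := if c then (Z \ D).card else (Z ∩ D).card

/-- Neither `D` nor its complement has at most `t` elements in the window `Z`. -/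
def Dirty (t : ℕ) (D Z : Finset ℕ) : Prop := t < (Z ∩ D).card ∧ t < (Z \ D).card

/-- `D` has almost the same number of elements in `Y` and in `Y'`. -/
def Close (s : ℕ) (D Y Y' : Finset ℕ) : Prop :=
  (Y ∩ D).card ≤ (Y' ∩ D).card + s ∧ (Y' ∩ D).card ≤ (Y ∩ D).card + s

/-- The colour changes at the point `p`: the windows of length `2 R` before and after `p` have
different colours up to `t` exceptions each. -/
def Bd (t R : ℕ) (D : Finset ℕ) (p : ℕ) : Prop :=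
  ∃ c : Bool, err c D (Ico (p - 2 * R) p) ≤ t ∧ err (!c) D (Ico p (p + 2 * R)) ≤ t

/-- Anti-concentration: random halves of two windows, one of which is not almost monochromatic. -/
def T_sample : Prop :=
  ∀ (τ s b : ℕ), 1 ≤ τ → τ ^ 2 ≤ b → ∀ (Z Z' : Finset ℕ), Z.card = 2 * b → Z'.card = 2 * b →
    ∀ (F : Finset (Finset ℕ)) (u : Finset ℕ → ℝ), (∀ D ∈ F, 0 ≤ u D) →
      ∃ Y Y' : Finset ℕ, Y ⊆ Z ∧ Y.card = b ∧ Y' ⊆ Z' ∧ Y'.card = b ∧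
        ∀ G ⊆ F, (∀ D ∈ G, (Dirty (τ ^ 2) D Z ∨ Dirty (τ ^ 2) D Z') ∧ Close s D Y Y') →
          τ * ∑ D ∈ G, u D ≤ 8 * (s + 1) * ∑ D ∈ F, u D

/-- A random shift avoids the points where the colour changes. -/
def T_shift : Prop :=
  ∀ (t R x K K' : ℕ), 1 ≤ R → ∀ (F : Finset (Finset ℕ)) (u : Finset ℕ → ℝ), (∀ D ∈ F, 0 ≤ u D) →
    ∃ a, R ≤ a ∧ a ≤ 3 * R ∧
      ∀ G ⊆ F, (∀ D ∈ G, Bd t R D (x + 2 * a) ∨ Bd t R D (x + 4 * a + K) ∨
          Bd t R D (x + 2 * a + K')) →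
        R * ∑ D ∈ G, u D ≤ 60 * (t + 1) * ∑ D ∈ F, u D

/-- Wrapping a noncrossing matching into a bundle of nested pairs, and concatenation. -/
def T_wrap : Prop :=
  (∀ (x y y' z : ℕ), y ≤ y' → ∀ (W O : Finset ℕ) (π : ℕ → ℕ) (Y Y' : Finset ℕ),
      NonCross W O π → O ⊆ W →
      (∀ i ∈ O, i < π i) → (∀ i ∈ Y, x ≤ i ∧ i < y) → (∀ i ∈ W, y ≤ i ∧ i < y') →
      (∀ i ∈ Y', y' ≤ i ∧ i < z) → Y.card = Y'.card →
      ∃ π' : ℕ → ℕ, NonCross (W ∪ Y ∪ Y') (O ∪ Y) π' ∧ (∀ i ∈ O ∪ Y, i < π' i) ∧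
        (∀ i ∈ W, π' i = π i) ∧ ∀ i ∈ Y, π' i ∈ Y') ∧
  ∀ (x y z : ℕ) (W₁ O₁ W₂ O₂ : Finset ℕ) (π₁ π₂ : ℕ → ℕ), NonCross W₁ O₁ π₁ → NonCross W₂ O₂ π₂ →
      O₁ ⊆ W₁ → O₂ ⊆ W₂ → (∀ i ∈ O₁, i < π₁ i) → (∀ i ∈ O₂, i < π₂ i) →
      (∀ i ∈ W₁, x ≤ i ∧ i < y) → (∀ i ∈ W₂, y ≤ i ∧ i < z) →
      ∃ π : ℕ → ℕ, NonCross (W₁ ∪ W₂) (O₁ ∪ O₂) π ∧ (∀ i ∈ O₁ ∪ O₂, i < π i) ∧
        (∀ i ∈ W₁, π i = π₁ i) ∧ ∀ i ∈ W₂, π i = π₂ i

/-- The maximal number of AND gates on a path of a formula. -/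
def ands {I : Type} : Fm I → ℕ
  | Fm.lit _ _ => 0
  | Fm.cst _ => 0
  | Fm.and F G => max (ands F) (ands G) + 1
  | Fm.or F G => max (ands F) (ands G)

/-- Polynomial-size circuits of formal degree one for the typed bracket language with
logarithmically nested AND gates. -/
def T_ands : Prop :=
  ∃ K : ℕ, ∀ n : ℕ, ∃ C : Ckt (Fin n × Fin 3),
    C.size ≤ (n + 2) ^ K ∧ ands (C.tree C.out) ≤ K * Nat.log 2 (n + 2) ∧ (∀ v, C.deg v ≤ 1) ∧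
      ∀ z, (C.eval z = true ↔ Dyck z)

end Pool.Agent.TH708.Tre
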