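import Pool.Agent.TH822.J988
import Pool.Agent.TH708.Tre.Defs

/-!
# Circuits of polynomial size and formal degree one for the typed bracket language with
logarithmically nested AND gates (the circuits of job 988)
-/

set_option autoImplicit false

namespace Pool.Agent.TH708.Tre

open Finset Pool.Agent.TH708.Dec Pool.Agent.TH822.J988

namespace FewAnds

lemma bor_ands {I : Type} (f : ℕ → Fm I) (B : ℕ) (h : ∀ t, ands (f t) ≤ B) : ∀ d i : ℕ,
    ands (bor d f i) ≤ B := by
  intro d
  induction d with
  | zero => intro i; exact h i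
  | succ d ih =>
    intro i
    simp only [bor, ands]
    exact max_le (ih _) (ih _)

variable {n : ℕ}

lemma lt'_ands (i : ℕ) (c : Fin 3) (b : Bool) : ands (lt' n i c b) = 0 := by
  unfold lt'
  split_ifs <;> rfl

lemma skipF_ands (i : ℕ) : ands (skipF n i) ≤ 3 := by
  unfold skipF
  simp [ands, lt'_ands]

lemma pairF_ands (i k : ℕ) : ands (pairF n i k) ≤ 3 := by
  unfold pairF ocF eqF sameF openF closeF
  simp [ands, lt'_ands]

lemma F_ands (d : ℕ) : ∀ m i k l j : ℕ, ands (F n d m i k l j) ≤ 3 + 2 * m := by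
  intro m
  induction m with
  | zero =>
    intro i k l j
    simp only [F, base]
    have h1 := skipF_ands (n := n) i
    have h2 := skipF_ands (n := n) l
    have h3 := pairF_ands (n := n) i l
    split_ifs <;> (try simp only [ands]) <;> omega
  | succ m ih =>
    intro i k l j
    rw [F_succ]
    have hb : ands (bor d (tm (F n d m) i k l j) 0) ≤ 3 + 2 * m + 2 := by
      apply bor_ands
      intro t
      unfold tm
      generalize t.unpair = u
      obtain ⟨u1, u2⟩ := u
      simp only
      generalize u1.unpair = ab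
      generalize u2.unpair = ec
      obtain ⟨a, b⟩ := ab
      obtain ⟨e, c⟩ := ec
      simp only [ands]
      have k1 : ands (pln (F n d m) i k l j a b) ≤ 3 + 2 * m + 2 := by
        unfold pln
        have := ih i a b j
        have := ih a b b b
        split_ifs <;> (try simp only [ands]) <;> omega
      have k2 : ands (stp (F n d m) a b e c) ≤ 3 + 2 * m := by
        unfold stp
        have := ih a b b b
        have := ih e c c c
        have := pairF_ands (n := n) a e
        split_ifs <;> (try simp only [ands]) <;> omega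
      have k3 : ands (trm (F n d m) i k l j a b e c) ≤ 3 + 2 * m + 2 := by
        unfold trm
        have := ih i a c j
        have := ih b k l e
        split_ifs <;> (try simp only [ands]) <;> omega
      omega
    have h1 := ih i k l j
    simp only [ands]
    omega

end FewAnds

open FewAnds in
theorem few_ands : T_ands := by
  classical
  refine ⟨100, fun n => ?_⟩
  set L := Nat.log 2 (n + 2) with hL
  have hL1 : 1 ≤ L := by
    rw [hL]
    exact Nat.log_pos (by norm_num) (by omega)
  have hL2 : 2 ^ L ≤ n + 2 := Nat.pow_log_le_self 2 (by omega)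
  have hL3 : n + 2 < 2 ^ (L + 1) := Nat.lt_pow_succ_log_self (by norm_num) _
  set d := 4 * (L + 1) with hd
  have hd1 : (n + 1) ^ 4 ≤ 2 ^ d := by
    rw [hd, mul_comm, pow_mul]
    exact Nat.pow_le_pow_left (by omega) 4
  set M := 2 + 4 * L with hM
  refine ⟨share (F n d M 0 n n n), ?_, ?_, fun v => ?_, fun z => ?_⟩
  · rw [share_size]
    have h1 := (card_le_card (sub_SS d M (Nat.zero_le n) le_rfl le_rfl le_rfl)).trans
      (card_SS (n := n) d M)
    refine h1.trans ?_
    have h2 : 2 ^ d ≤ 16 * (n + 2) ^ 4 := by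
      have h3 : 2 ^ d = 16 * (2 ^ L) ^ 4 := by
        have h4 : 2 ^ (L + 1) = 2 * 2 ^ L := by rw [pow_succ]; ring
        rw [hd, mul_comm, pow_mul, h4]
        ring
      have := Nat.pow_le_pow_left hL2 4
      omega
    have h3 : L ≤ n + 2 := by
      have := Nat.lt_two_pow_self (n := L)
      omega
    have h4 : M ≤ 5 * (n + 2) := by omega
    have h5 : (n + 1) ^ 4 ≤ (n + 2) ^ 4 := Nat.pow_le_pow_left (by omega) 4
    have h6 : 1 ≤ (n + 2) ^ 5 := Nat.one_le_pow _ _ (by omega)
    calc (n + 1) ^ 4 * 15 + M * ((n + 1) ^ 4 * (2 ^ d * 21))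
        ≤ (n + 2) ^ 4 * 15 + 5 * (n + 2) * ((n + 2) ^ 4 * (16 * (n + 2) ^ 4 * 21)) := by gcongr
      _ = (n + 2) ^ 4 * (15 * 1) + 1680 * (n + 2) ^ 9 := by ring
      _ ≤ (n + 2) ^ 4 * (15 * (n + 2) ^ 5) + 1680 * (n + 2) ^ 9 := by gcongr
      _ = 1695 * (n + 2) ^ 9 := by ring
      _ ≤ 2 ^ 11 * (n + 2) ^ 9 := by gcongr; norm_num
      _ ≤ (n + 2) ^ 11 * (n + 2) ^ 9 := by gcongr; omega
      _ = (n + 2) ^ 20 := by rw [← pow_add]
      _ ≤ (n + 2) ^ 100 := Nat.pow_le_pow_right (by omega) (by norm_num)
  · rw [share_out]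
    refine (F_ands d M 0 n n n).trans ?_
    omega
  · unfold Ckt.deg
    rw [share_out]
    refine (F_deg d v M 0 n n n (Nat.zero_le n) le_rfl le_rfl).trans ?_
    split_ifs <;> omega
  · unfold Ckt.eval
    rw [share_out]
    constructor
    · intro h
      exact bal_of_ctx (sound d z M 0 n n n (Nat.zero_le n) le_rfl le_rfl le_rfl h)
    · intro h
      refine good_all hd1 z L 0 n n n le_rfl le_rfl (ctx_of_bal h) ?_
      omega

end Pool.Agent.TH708.Tre
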