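import Pool.Agent.TH708.Tre.Cut
import Pool.Agent.TH708.Tre.FewAnds

/-!
# The upper bound in terms of heavy gates
-/

set_option autoImplicit false

namespace Pool.Agent.TH708.Tre

open Finset Pool.Agent.TH708.Dec

theorem nest_le_ands {I : Type} [DecidableEq I] (A : Finset I) (m : ℕ) (F : Fm I) :
    nest A m F ≤ ands F := by
  induction F with
  | lit i b => exact le_rfl
  | cst b => exact le_rfl
  | and F G ihF ihG => simp only [nest, ands]; split_ifs <;> omega
  | or F G ihF ihG => simp only [nest, ands]; omega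

theorem upper_nest : ∃ K : ℕ, ∀ n : ℕ, ∃ C : Ckt (Fin n × Fin 3),
    C.size ≤ (n + 2) ^ K ∧ ands (C.tree C.out) ≤ K * Nat.log 2 (n + 2) ∧
      (∀ A m, nest A m (C.tree C.out) ≤ ands (C.tree C.out)) ∧
      (∀ v, C.deg v ≤ 1) ∧ ∀ z, (C.eval z = true ↔ Dyck z) := by
  obtain ⟨K, hK⟩ := few_ands
  refine ⟨K, fun n => ?_⟩
  obtain ⟨C, h1, h2, h3, h4⟩ := hK n
  exact ⟨C, h1, h2, fun A m => nest_le_ands A m _, h3, h4⟩

end Pool.Agent.TH708.Tre
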