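import Pool.Agent.TH708.Tre.Greedy

/-!
# The combinatorial theorem
-/

set_option autoImplicit false
set_option linter.unusedSectionVars false

namespace Pool.Agent.TH708.Tre

open Finset Pool.Agent.TH708.Dec

theorem small_pow (r : ℕ) (hr : 5 ≤ r) : 180 * r + 32 < 4 ^ r := by
  induction r, hr using Nat.le_induction with
  | base => norm_num
  | succ r hr ih => rw [pow_succ]; omega

/-- Few rare events: the size is not one third. -/
theorem cost_large {t s R r : ℕ} {D : Finset ℕ} (hr : 5 ≤ r) (hR : 2 * t + s < R)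
    (hR2 : 4 * t * 2 ^ (12 * r) ≤ 8 * R) (T : Lay (12 * r)) (hV : Valid R 0 T)
    (hA : AllClose s D T) (h1 : 3 * (act T ∩ D).card ≤ (act T).card)
    (h2 : (act T).card ≤ 3 * (act T ∩ D).card + 6 * R) : 5 * r < cost t s R D 0 T := by
  by_contra hcon
  push Not at hcon
  obtain ⟨κ, hκ⟩ : ∃ κ, κ = cost t s R D 0 T := ⟨_, rfl⟩
  obtain ⟨c, hc⟩ := root_exists (t := t) (s := s) (R := R) (x := 0) T hA
  obtain ⟨M, hM, hE⟩ := det_main hR 0 T hV hA c hc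
  rw [← hκ] at hcon hM hE
  have hcard := act_card 0 T hV
  obtain ⟨f, hf⟩ : ∃ f, f = (act T ∩ D).card := ⟨_, rfl⟩
  obtain ⟨w, hw⟩ : ∃ w, w = (act T).card := ⟨_, rfl⟩
  rw [← hf] at h1 h2 hE
  rw [← hw] at h1 h2 hcard
  have hcardZ : (w : ℤ) + 8 * R = 8 * R * 2 ^ (12 * r) := by exact_mod_cast hcard
  have h1Z : 3 * (f : ℤ) ≤ w := by exact_mod_cast h1
  have h2Z : (w : ℤ) ≤ 3 * f + 6 * R := by exact_mod_cast h2
  have hR2Z : 4 * (t : ℤ) * 2 ^ (12 * r) ≤ 8 * R := by exact_mod_cast hR2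
  have hR0 : (0 : ℤ) < R := by
    have : 0 < R := by omega
    exact_mod_cast this
  obtain ⟨M', hM'⟩ : ∃ M', M' = M + (if c then 1 else 0) * 2 ^ (12 * r) := ⟨_, rfl⟩
  have hrep : Rep (κ + 1) M' := by
    rw [hM']
    apply Rep.add _ _ _ hM
    cases c <;> simp
  have hfar := hrep.dig.far (12 * r)
  obtain ⟨P, hP⟩ : ∃ P : ℤ, P = 2 ^ (12 * r) := ⟨_, rfl⟩
  rw [← hP] at hcardZ hR2Z hM' hfar hE
  have ht0 : (0 : ℤ) ≤ t := Int.natCast_nonneg _
  have hκ0 : (0 : ℤ) ≤ κ := Int.natCast_nonneg _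
  have hcc : (0 : ℤ) ≤ (if c then 1 else 0) ∧ (if c then 1 else 0) ≤ (1 : ℤ) := by
    cases c <;> simp
  generalize hcd : (if c then (1 : ℤ) else 0) = γ at hE hM' hcc
  have hb : |3 * M' - P| ≤ 9 * κ + 8 := by
    have hb1 : |(8 * R : ℤ) * (3 * M' - P)| ≤ 8 * R * (9 * κ + 8) := by
      rw [abs_le] at hE ⊢
      have e1 : (8 * R : ℤ) * (3 * M' - P) =
          -3 * ((f : ℤ) - 8 * R * (γ * (P - 1) + M)) + (3 * f - w) + (w + 8 * R - 8 * R * P) +
            (24 * R * γ - 8 * R) := by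
        rw [hM']; ring
      rw [e1, hcardZ]
      have e2 : (0 : ℤ) ≤ 24 * R * γ ∧ (24 * R * γ : ℤ) ≤ 24 * R := by
        constructor
        · exact mul_nonneg (by positivity) hcc.1
        · nlinarith
      have e3 : 4 * (t : ℤ) * (P - 1) ≤ 8 * R := by nlinarith
      generalize (f : ℤ) - 8 * R * (γ * (P - 1) + M) = A at hE ⊢
      generalize (24 * R * γ : ℤ) = q at e2 ⊢
      have e4 : (8 * R * (9 * κ + 8) : ℤ) = 72 * R * κ + 64 * R := by ring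
      rw [e4]
      have e5 : (24 * R * κ : ℤ) = 24 * (R * κ) := by ring
      have e6 : (72 * R * κ : ℤ) = 72 * (R * κ) := by ring
      rw [e6]
      rw [e5] at hE
      generalize (R * κ : ℤ) = v at hE ⊢
      constructor
      · linarith [hE.1, hE.2, e2.1, e2.2]
      · linarith [hE.1, hE.2, e2.1, e2.2]
    rw [abs_mul, abs_of_pos (by positivity : (0 : ℤ) < 8 * R)] at hb1
    exact le_of_mul_le_mul_left hb1 (by positivity)
  have hb2 : P ≤ (9 * κ + 8) * 4 ^ (κ + 1) :=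
    hfar.trans (mul_le_mul_of_nonneg_right hb (by positivity))
  have hκr : (κ : ℤ) ≤ 5 * r := by exact_mod_cast hcon
  have hb3 : (9 * (κ : ℤ) + 8) * 4 ^ (κ + 1) ≤ (45 * r + 8) * 4 ^ (5 * r + 1) := by
    apply mul_le_mul
    · linarith
    · exact pow_le_pow_right₀ (by norm_num) (by omega)
    · positivity
    · positivity
  have hsm : (180 * (r : ℤ) + 32) < 4 ^ r := by exact_mod_cast small_pow r hr
  have hb4 : ((45 * r + 8) * 4 ^ (5 * r + 1) : ℤ) < P := by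
    have e1 : P = 4 ^ r * 4 ^ (5 * r) := by
      rw [hP, ← pow_add, show (4 : ℤ) = 2 ^ 2 by norm_num, ← pow_mul]
      congr 1; ring
    rw [e1, pow_succ]
    have e2 : ((45 * r + 8) * (4 ^ (5 * r) * 4) : ℤ) = (180 * r + 32) * 4 ^ (5 * r) := by ring
    rw [e2]
    exact mul_lt_mul_of_pos_right hsm (by positivity)
  linarith

/-- **The combinatorial theorem.** -/
theorem comb (hsa : T_sample) (hsh : T_shift) (r s : ℕ) (hr : 5 ≤ r) (hs : s ≤ 29 * r ^ 2)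
    (F : Finset (Finset ℕ)) (hF : F.card ≤ 2 ^ s) :
    ∃ T : Lay (12 * r), Valid (2 ^ (72 * r)) 0 T ∧ ∀ D ∈ F, AllClose s D T →
      3 * (act T ∩ D).card ≤ (act T).card →
      (act T).card ≤ 3 * (act T ∩ D).card + 6 * 2 ^ (72 * r) → False := by
  classical
  set R := 2 ^ (72 * r) with hRdef
  set τ := 2 ^ (24 * r) with hτdef
  have hτ2 : τ ^ 2 = 2 ^ (48 * r) := by rw [hτdef, ← pow_mul]; congr 1; ring
  have hr2 : r ^ 2 < 2 ^ (2 * r) := by
    rw [mul_comm 2 r, pow_mul]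
    exact Nat.pow_lt_pow_left Nat.lt_two_pow_self (by norm_num)
  have h4r := small_pow r hr
  have h4r' : 4 ^ r = 2 ^ (2 * r) := by rw [pow_mul]; norm_num
  have hbig : 136 + 464 * r ^ 2 ≤ 2 ^ (6 * r) := by
    have e1 : 2 ^ (6 * r) = 2 ^ (2 * r) * (2 ^ (2 * r) * 2 ^ (2 * r)) := by
      rw [← pow_add, ← pow_add]; congr 1; ring
    rw [e1]
    have e2 : 932 < 2 ^ (2 * r) := by omega
    have e3 : 1 * (932 * 932) ≤ 2 ^ (2 * r) * (2 ^ (2 * r) * 2 ^ (2 * r)) := by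
      apply Nat.mul_le_mul (by omega)
      exact Nat.mul_le_mul e2.le e2.le
    have e4 : r ^ 2 * (932 * 932) ≤ 2 ^ (2 * r) * (2 ^ (2 * r) * 2 ^ (2 * r)) := by
      apply Nat.mul_le_mul hr2.le
      exact Nat.mul_le_mul e2.le e2.le
    omega
  obtain ⟨ρ, hρ⟩ : ∃ ρ : ℝ, ρ = 60 * ((τ : ℝ) ^ 2 + 1) / R + 16 * ((s : ℝ) + 1) / τ := ⟨_, rfl⟩
  obtain ⟨z, hz⟩ : ∃ z : ℝ, z = 2 ^ (6 * r) := ⟨_, rfl⟩
  have hz0 : 0 < z := by rw [hz]; positivity
  have hRR : (R : ℝ) = 2 ^ (72 * r) := by rw [hRdef]; push_cast; rfl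
  have hττ : (τ : ℝ) = 2 ^ (24 * r) := by rw [hτdef]; push_cast; rfl
  have hρ0 : 0 ≤ ρ := by rw [hρ]; positivity
  -- the product of the three factors
  have hsmall : z * ρ * 2 ^ (12 * r) ≤ 1 := by
    have e1 : z * 2 ^ (12 * r) = 2 ^ (18 * r) := by
      rw [hz, ← pow_add]; congr 1; ring
    have e2 : z * ρ * 2 ^ (12 * r) = 2 ^ (18 * r) * ρ := by
      rw [← e1]; ring
    rw [e2, hρ, mul_add]
    have e3 : (2 : ℝ) ^ (18 * r) * (60 * ((τ : ℝ) ^ 2 + 1) / R) ≤ 120 / 2 ^ (6 * r) := by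
      have f1 : (τ : ℝ) ^ 2 + 1 ≤ 2 * 2 ^ (48 * r) := by
        have : (τ : ℝ) ^ 2 = 2 ^ (48 * r) := by exact_mod_cast hτ2
        rw [this]
        have : (1 : ℝ) ≤ 2 ^ (48 * r) := one_le_pow₀ (by norm_num)
        linarith
      rw [hRR, ← mul_div_assoc, div_le_div_iff₀ (by positivity) (by positivity)]
      calc (2 : ℝ) ^ (18 * r) * (60 * ((τ : ℝ) ^ 2 + 1)) * 2 ^ (6 * r)
          ≤ 2 ^ (18 * r) * (60 * (2 * 2 ^ (48 * r))) * 2 ^ (6 * r) := by gcongr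
        _ = 120 * (2 ^ (18 * r) * 2 ^ (48 * r) * 2 ^ (6 * r)) := by ring
        _ = 120 * 2 ^ (72 * r) := by
            rw [← pow_add, ← pow_add]; congr 2; ring
    have e4 : (2 : ℝ) ^ (18 * r) * (16 * ((s : ℝ) + 1) / τ) ≤
        (16 + 464 * (r : ℝ) ^ 2) / 2 ^ (6 * r) := by
      have f1 : (s : ℝ) ≤ 29 * (r : ℝ) ^ 2 := by exact_mod_cast hs
      rw [hττ, ← mul_div_assoc, div_le_div_iff₀ (by positivity) (by positivity)]
      calc (2 : ℝ) ^ (18 * r) * (16 * ((s : ℝ) + 1)) * 2 ^ (6 * r)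
          ≤ 2 ^ (18 * r) * (16 * (29 * (r : ℝ) ^ 2 + 1)) * 2 ^ (6 * r) := by gcongr
        _ = (16 + 464 * (r : ℝ) ^ 2) * (2 ^ (18 * r) * 2 ^ (6 * r)) := by ring
        _ = (16 + 464 * (r : ℝ) ^ 2) * 2 ^ (24 * r) := by
            rw [← pow_add]; congr 2; ring
    have e5 : (120 : ℝ) / 2 ^ (6 * r) + (16 + 464 * (r : ℝ) ^ 2) / 2 ^ (6 * r) ≤ 1 := by
      rw [← add_div, div_le_one (by positivity)]
      have : (136 + 464 * (r : ℝ) ^ 2) ≤ 2 ^ (6 * r) := by exact_mod_cast hbig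
      linarith
    linarith
  have hτ1 : 1 ≤ τ := Nat.one_le_two_pow
  have hτR : τ ^ 2 ≤ R := by
    rw [hτ2]; exact Nat.pow_le_pow_right (by norm_num) (by omega)
  obtain ⟨T, hV, hsum⟩ := greedy hsa hsh hτ1 hτR ρ z (le_of_eq hρ.symm) hz0.le (12 * r) 0 F
    (fun _ => 1) (fun _ _ => zero_le_one)
  refine ⟨T, hV, fun D hD hA h1 h2 => ?_⟩
  have hcost : 5 * r < cost (τ ^ 2) s R D 0 T := by
    refine cost_large hr ?_ ?_ T hV hA h1 h2
    · have g1 : 2 ^ (48 * r) * 2 ^ (2 * r) ≤ R := by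
        rw [← pow_add]; exact Nat.pow_le_pow_right (by norm_num) (by omega)
      have g2 : 932 < 2 ^ (2 * r) := by omega
      have g3 : 1 ≤ 2 ^ (48 * r) := Nat.one_le_two_pow
      have g4 : s < 29 * 2 ^ (2 * r) := by omega
      have g5 : 2 ^ (2 * r) * 2 ^ (2 * r) ≤ 2 ^ (48 * r) := by
        rw [← pow_add]; exact Nat.pow_le_pow_right (by norm_num) (by omega)
      have g6 : 932 * 2 ^ (2 * r) ≤ 2 ^ (2 * r) * 2 ^ (2 * r) := Nat.mul_le_mul_right _ g2.le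
      have g7 : 2 ^ (48 * r) * 932 ≤ 2 ^ (48 * r) * 2 ^ (2 * r) := Nat.mul_le_mul_left _ g2.le
      rw [hτ2]
      omega
    · rw [hτ2]
      have g1 : 4 * 2 ^ (48 * r) * 2 ^ (12 * r) = 4 * 2 ^ (60 * r) := by
        rw [mul_assoc, ← pow_add]; congr 2; ring
      rw [g1]
      exact Nat.mul_le_mul (by norm_num) (Nat.pow_le_pow_right (by norm_num) (by omega))
  have hz1 : 1 ≤ z := by rw [hz]; exact one_le_pow₀ (by norm_num)
  have e1 : z ^ (5 * r + 1) ≤ ∑ D ∈ F, (1 : ℝ) * z ^ (cost (τ ^ 2) s R D 0 T) := by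
    refine le_trans ?_ (single_le_sum (f := fun D => (1 : ℝ) * z ^ (cost (τ ^ 2) s R D 0 T))
      (fun D _ => by positivity) hD)
    simp only [one_mul]
    exact pow_le_pow_right₀ hz1 hcost
  have e2 : (1 + z * ρ) ^ (2 ^ (12 * r) - 1) ≤ 3 := by
    have f1 : (1 + z * ρ) ^ (2 ^ (12 * r) - 1) ≤ (Real.exp (z * ρ)) ^ (2 ^ (12 * r) - 1) := by
      apply pow_le_pow_left₀ (by positivity)
      have := Real.add_one_le_exp (z * ρ)
      linarith
    have f2 : (Real.exp (z * ρ)) ^ (2 ^ (12 * r) - 1) ≤ Real.exp 1 := by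
      rw [← Real.exp_nat_mul]
      apply Real.exp_le_exp.2
      have g1 : ((2 ^ (12 * r) - 1 : ℕ) : ℝ) ≤ 2 ^ (12 * r) := by
        have : ((2 ^ (12 * r) - 1 : ℕ) : ℝ) ≤ ((2 ^ (12 * r) : ℕ) : ℝ) := by
          exact_mod_cast Nat.sub_le _ _
        refine this.trans (le_of_eq ?_)
        push_cast; rfl
      calc ((2 ^ (12 * r) - 1 : ℕ) : ℝ) * (z * ρ) ≤ 2 ^ (12 * r) * (z * ρ) :=
            mul_le_mul_of_nonneg_right g1 (by positivity)
        _ = z * ρ * 2 ^ (12 * r) := by ring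
        _ ≤ 1 := hsmall
    have f3 : Real.exp 1 ≤ 3 := by
      have := Real.exp_one_lt_d9
      linarith
    exact f1.trans (f2.trans f3)
  have e3 : ∑ D ∈ F, (1 : ℝ) ≤ 2 ^ (29 * r ^ 2) := by
    rw [sum_const, nsmul_eq_mul, mul_one]
    have : F.card ≤ 2 ^ (29 * r ^ 2) := hF.trans (Nat.pow_le_pow_right (by norm_num) hs)
    exact_mod_cast this
  have e4 : z ^ (5 * r + 1) ≤ 3 * 2 ^ (29 * r ^ 2) := by
    refine e1.trans (hsum.trans ?_)
    exact mul_le_mul e2 e3 (sum_nonneg fun _ _ => zero_le_one) (by norm_num)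
  have e5 : (3 : ℝ) * 2 ^ (29 * r ^ 2) < z ^ (5 * r + 1) := by
    rw [hz, ← pow_mul]
    calc (3 : ℝ) * 2 ^ (29 * r ^ 2) < 2 ^ 2 * 2 ^ (29 * r ^ 2) := by
          apply mul_lt_mul_of_pos_right (by norm_num) (by positivity)
      _ = 2 ^ (2 + 29 * r ^ 2) := by rw [← pow_add]
      _ ≤ 2 ^ (6 * r * (5 * r + 1)) := by
          apply pow_le_pow_right₀ (by norm_num)
          nlinarith
  linarith

end Pool.Agent.TH708.Tre
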