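import Pool.Agent.TH708.Nar.Cut

/-!
# Cuts of one accepting run, and the rectangle bound
-/

set_option autoImplicit false
set_option linter.unusedSectionVars false

namespace Pool.Agent.TH708.Tre

open Finset Pool.Agent.TH708.Dec Pool.Agent.TH708.Nar

variable {I : Type} [DecidableEq I]

/-- The inputs of `A` that are read by a formula. -/
def reads (A : Finset I) (F : Fm I) : Finset I := A.filter fun v => 1 ≤ F.deg v

/-- The maximal number of heavy AND gates on a path; an AND gate is heavy if both sub-formulas read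
more than `m` inputs of `A`. -/
def nest (A : Finset I) (m : ℕ) : Fm I → ℕ
  | Fm.lit _ _ => 0
  | Fm.cst _ => 0
  | Fm.and F G => max (nest A m F) (nest A m G) +
      (if m < (reads A F).card ∧ m < (reads A G).card then 1 else 0)
  | Fm.or F G => max (nest A m F) (nest A m G)

/-- The gates that read more than `m` inputs of `A`. -/
def heavy (A : Finset I) (m : ℕ) (C : Ckt I) : Finset C.G :=
  univ.filter fun g => m < (reads A (C.tree g)).card

open Classical in
/-- The node has a proof tree on `z` in which exactly the nodes of `G` are taken for granted. -/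
inductive Prf (C : Ckt I) (z : I → Bool) : C.G → Finset C.G → Prop
  | cut (g : C.G) : Prf C z g {g}
  | tru (g : C.G) (h : (C.tree g).eval z = true) : Prf C z g ∅
  | orl {g a b : C.G} {G : Finset C.G} (k : C.kind g = Kind.or a b) (h : Prf C z a G) :
      Prf C z g G
  | orr {g a b : C.G} {G : Finset C.G} (k : C.kind g = Kind.or a b) (h : Prf C z b G) :
      Prf C z g G
  | and {g a b : C.G} {G G' : Finset C.G} (k : C.kind g = Kind.and a b) (h : Prf C z a G)
      (h' : Prf C z b G') : Prf C z g (G ∪ G')

variable {C : Ckt I}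

open Classical in
theorem Prf.sound {z : I → Bool} {g : C.G} {G : Finset C.G} (h : Prf C z g G)
    (hG : ∀ a ∈ G, (C.tree a).eval z = true) : (C.tree g).eval z = true := by
  induction h with
  | cut g => exact hG g (mem_singleton_self _)
  | tru g h => exact h
  | orl k _ ih => rw [tree_or C _ _ _ k]; simp [Fm.eval, ih hG]
  | orr k _ ih => rw [tree_or C _ _ _ k]; simp [Fm.eval, ih hG]
  | and k _ _ ih ih' =>
    rw [tree_and C _ _ _ k]
    simp [Fm.eval, ih fun a ha => hG a (mem_union_left _ ha),
      ih' fun a ha => hG a (mem_union_right _ ha)]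

open Classical in
theorem Prf.deg_le {z : I → Bool} {g : C.G} {G : Finset C.G} (h : Prf C z g G) :
    ∀ a ∈ G, ∀ v, (C.tree a).deg v ≤ (C.tree g).deg v := by
  induction h with
  | cut g => intro a ha v; rw [mem_singleton] at ha; rw [ha]
  | tru g h => intro a ha; exact absurd ha (notMem_empty _)
  | orl k _ ih =>
    intro a ha v; have := ih a ha v; rw [tree_or C _ _ _ k]; simp only [Fm.deg]; omega
  | orr k _ ih =>
    intro a ha v; have := ih a ha v; rw [tree_or C _ _ _ k]; simp only [Fm.deg]; omega
  | and k _ _ ih ih' =>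
    intro a ha v
    rw [tree_and C _ _ _ k]
    simp only [Fm.deg]
    rcases mem_union.1 ha with ha | ha
    · have := ih a ha v; omega
    · have := ih' a ha v; omega

open Classical in
theorem Prf.congr {P : I → Prop} {z z' : I → Bool} {g : C.G} {G : Finset C.G}
    (h : Prf C z g G) : (∀ v, P v → (C.tree g).deg v ≤ 1) →
    (∀ v, z v ≠ z' v → P v ∧ (1 ≤ (C.tree g).deg v → ∃ a ∈ G, 1 ≤ (C.tree a).deg v)) →
      Prf C z' g G := by
  induction h with
  | cut g => intro _ _; exact Prf.cut g
  | tru g h =>
    intro _ hz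
    apply Prf.tru
    rw [← h]
    symm
    apply Fm.eval_congr'
    intro v hv
    by_contra hne
    obtain ⟨a, ha, _⟩ := (hz v hne).2 hv
    exact absurd ha (notMem_empty _)
  | orl k _ ih =>
    intro hd hz
    rw [tree_or C _ _ _ k] at hd hz
    simp only [Fm.deg] at hd hz
    refine Prf.orl k (ih (fun v hv => ?_) fun v hv => ?_)
    · have := hd v hv; omega
    · obtain ⟨h1, h2⟩ := hz v hv
      exact ⟨h1, fun h3 => h2 (by omega)⟩
  | orr k _ ih =>
    intro hd hz
    rw [tree_or C _ _ _ k] at hd hz
    simp only [Fm.deg] at hd hz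
    refine Prf.orr k (ih (fun v hv => ?_) fun v hv => ?_)
    · have := hd v hv; omega
    · obtain ⟨h1, h2⟩ := hz v hv
      exact ⟨h1, fun h3 => h2 (by omega)⟩
  | and k ha hb ih ih' =>
    intro hd hz
    rw [tree_and C _ _ _ k] at hd hz
    simp only [Fm.deg] at hd hz
    refine Prf.and k (ih (fun v hv => ?_) fun v hv => ?_) (ih' (fun v hv => ?_) fun v hv => ?_)
    · have := hd v hv; omega
    · obtain ⟨h1, h2⟩ := hz v hv
      refine ⟨h1, fun h3 => ?_⟩
      obtain ⟨c, hc, h4⟩ := h2 (by omega)
      rcases mem_union.1 hc with hc | hc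
      · exact ⟨c, hc, h4⟩
      · have := hb.deg_le c hc v
        have := hd v h1
        omega
    · have := hd v hv; omega
    · obtain ⟨h1, h2⟩ := hz v hv
      refine ⟨h1, fun h3 => ?_⟩
      obtain ⟨c, hc, h4⟩ := h2 (by omega)
      rcases mem_union.1 hc with hc | hc
      · have := ha.deg_le c hc v
        have := hd v h1
        omega
      · exact ⟨c, hc, h4⟩

section

variable {V : Type} [DecidableEq V] [Fintype V] {e : V → I} {ρ : I → Bool} {Y : Finset V}
  {σ : V → V}

theorem vs_le_reads (he : Function.Injective e) {A : Finset I} (hA : ∀ i, e i ∈ A) (g : C.G) :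
    (vs C e g).card ≤ (reads A (C.tree g)).card := by
  apply card_le_card_of_injOn e
  · intro i hi
    rw [mem_coe, mem_vs] at hi
    rw [mem_coe, reads, mem_filter]
    exact ⟨hA i, hi⟩
  · exact he.injOn

/-- **Cuts of one accepting run.** -/
theorem exists_cut (S : Sit C e ρ Y σ) {A : Finset I} (hA : ∀ i, e i ∈ A) {m : ℕ} (hm : 1 ≤ m)
    {x : V → Bool} : ∀ (N : ℕ) (g : C.G), C.rank g < N → Rc C e ρ g x → ∀ τ,
      τ ≤ (vs C e g).card → ∃ G : Finset C.G, Prf C (merge e ρ x) g G ∧
        (∀ a ∈ G, (C.tree a).eval (merge e ρ x) = true ∧ a ∈ heavy A m C) ∧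
        G.card ≤ nest A m (C.tree g) + 1 ∧ (G.biUnion (vs C e)).card ≤ τ ∧
        τ ≤ (G.biUnion (vs C e)).card + 2 * m := by
  classical
  intro N
  induction N with
  | zero => intro g hg; exact absurd hg (Nat.not_lt_zero _)
  | succ N ih =>
    intro g hN hg τ hτ
    by_cases hτm : τ ≤ 2 * m
    · exact ⟨∅, Prf.tru g hg.2, by simp, by simp, by simp, by simpa using hτm⟩
    push Not at hτm
    have hheavy : ∀ a, m < (vs C e a).card → a ∈ heavy A m C := by
      intro a ha
      rw [heavy, mem_filter]
      exact ⟨mem_univ _, ha.trans_le (vs_le_reads S.inj hA a)⟩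
    by_cases heq : (vs C e g).card = τ
    · refine ⟨{g}, Prf.cut g, ?_, by simp, ?_, ?_⟩
      · intro a ha
        rw [mem_singleton] at ha
        subst ha
        exact ⟨hg.2, hheavy a (by omega)⟩
      · rw [singleton_biUnion, heq]
      · rw [singleton_biUnion, heq]; omega
    have hgate : IsGate C g := by
      by_contra hng
      have := vs_small S.inj hng
      omega
    obtain ⟨a, b, h | h⟩ := hgate
    · -- AND
      have hlt := C.and_lt g a b h
      have hspec := sel_spec S hg ⟨a, b, Or.inl h⟩
      rw [sel_and h] at hspec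
      obtain ⟨_, hsel, _, _⟩ := hspec
      have hRa := (hsel a (by simp)).1
      have hRb := (hsel b (by simp)).1
      have hdis : Disjoint (vs C e a) (vs C e b) := by
        rw [disjoint_left]
        intro i hi hi'
        rw [mem_vs] at hi hi'
        have h2 := hg.1.deg_le (e i)
        rw [tree_and C _ _ _ h] at h2
        simp only [Fm.deg] at h2
        have h3 := S.deg i
        omega
      have hsum : (vs C e g).card = (vs C e a).card + (vs C e b).card := by
        rw [vs_and h, card_union_of_disjoint hdis]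
      have hnest : nest A m (C.tree g) = max (nest A m (C.tree a)) (nest A m (C.tree b)) +
          (if m < (reads A (C.tree a)).card ∧ m < (reads A (C.tree b)).card then 1 else 0) := by
        rw [tree_and C _ _ _ h]; rfl
      by_cases ha : τ ≤ (vs C e a).card
      · obtain ⟨G, g1, g2, g3, g4, g5⟩ := ih a (by omega) hRa τ ha
        refine ⟨G, ?_, g2, by omega, g4, g5⟩
        have := Prf.and h g1 (Prf.tru b hRb.2)
        rwa [union_empty] at this
      by_cases hb : τ ≤ (vs C e b).card
      · obtain ⟨G, g1, g2, g3, g4, g5⟩ := ih b (by omega) hRb τ hb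
        refine ⟨G, ?_, g2, by omega, g4, g5⟩
        have := Prf.and h (Prf.tru a hRa.2) g1
        rwa [empty_union] at this
      push Not at ha hb
      by_cases hlb : (reads A (C.tree b)).card ≤ m
      · have h1 := vs_le_reads (C := C) S.inj hA b
        refine ⟨{a}, ?_, ?_, by simp, ?_, ?_⟩
        · have := Prf.and h (Prf.cut a) (Prf.tru b hRb.2)
          rwa [union_empty] at this
        · intro c hc
          rw [mem_singleton] at hc
          subst hc
          exact ⟨hRa.2, hheavy c (by omega)⟩
        · rw [singleton_biUnion]; omega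
        · rw [singleton_biUnion]; omega
      by_cases hla : (reads A (C.tree a)).card ≤ m
      · have h1 := vs_le_reads (C := C) S.inj hA a
        refine ⟨{b}, ?_, ?_, by simp, ?_, ?_⟩
        · have := Prf.and h (Prf.tru a hRa.2) (Prf.cut b)
          rwa [empty_union] at this
        · intro c hc
          rw [mem_singleton] at hc
          subst hc
          exact ⟨hRb.2, hheavy c (by omega)⟩
        · rw [singleton_biUnion]; omega
        · rw [singleton_biUnion]; omega
      push Not at hla hlb
      rw [if_pos ⟨hla, hlb⟩] at hnest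
      obtain ⟨G, g1, g2, g3, g4, g5⟩ := ih b (by omega) hRb (τ - (vs C e a).card) (by omega)
      have hGb : G.biUnion (vs C e) ⊆ vs C e b := by
        intro i hi
        rw [mem_biUnion] at hi
        obtain ⟨c, hc, hi⟩ := hi
        rw [mem_vs] at hi ⊢
        exact hi.trans (g1.deg_le c hc _)
      have hcard : (({a} ∪ G).biUnion (vs C e)).card =
          (vs C e a).card + (G.biUnion (vs C e)).card := by
        rw [union_biUnion, singleton_biUnion, card_union_of_disjoint]
        exact disjoint_of_subset_right hGb hdis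
      refine ⟨{a} ∪ G, Prf.and h (Prf.cut a) g1, ?_, ?_, ?_, ?_⟩
      · intro c hc
        rw [mem_union, mem_singleton] at hc
        rcases hc with rfl | hc
        · refine ⟨hRa.2, ?_⟩
          rw [heavy, mem_filter]
          exact ⟨mem_univ _, hla⟩
        · exact g2 c hc
      · refine (card_union_le _ _).trans ?_
        rw [card_singleton]
        omega
      · rw [hcard]; omega
      · rw [hcard]; omega
    · -- OR
      have hlt := C.or_lt g a b h
      have hspec := sel_spec S hg ⟨a, b, Or.inr h⟩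
      rw [sel_or h] at hspec
      obtain ⟨_, hsel, hsub, _⟩ := hspec
      have hnest : nest A m (C.tree g) = max (nest A m (C.tree a)) (nest A m (C.tree b)) := by
        rw [tree_or C _ _ _ h]; rfl
      by_cases ht : (C.tree a).eval (merge e ρ x) = true
      · rw [if_pos ht] at hsel hsub
        rw [singleton_biUnion] at hsub
        have hRa := (hsel a (mem_singleton_self _)).1
        obtain ⟨G, g1, g2, g3, g4, g5⟩ := ih a (by omega) hRa τ (hτ.trans (card_le_card hsub))
        exact ⟨G, Prf.orl h g1, g2, by omega, g4, g5⟩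
      · rw [if_neg ht] at hsel hsub
        rw [singleton_biUnion] at hsub
        have hRb := (hsel b (mem_singleton_self _)).1
        obtain ⟨G, g1, g2, g3, g4, g5⟩ := ih b (by omega) hRb τ (hτ.trans (card_le_card hsub))
        exact ⟨G, Prf.orr h g1, g2, by omega, g4, g5⟩

/-- The cut is possible on the input. -/
def Good (C : Ckt I) (e : V → I) (ρ : I → Bool) (G : Finset C.G) (x : V → Bool) : Prop :=
  Prf C (merge e ρ x) C.out G ∧ ∀ a ∈ G, (C.tree a).eval (merge e ρ x) = true

theorem Good.acc (S : Sit C e ρ Y σ) {G : Finset C.G} {x : V → Bool} (h : Good C e ρ G x) :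
    ∀ y ∈ Y, x y = x (σ y) := (S.eval x).1 (h.1.sound h.2)

theorem Good.mix (S : Sit C e ρ Y σ) {G : Finset C.G} {x x' : V → Bool} (h : Good C e ρ G x)
    (h' : Good C e ρ G x') :
    Good C e ρ G (fun i => if i ∈ G.biUnion (vs C e) then x i else x' i) := by
  refine ⟨?_, ?_⟩
  · refine h'.1.congr (P := fun v => ∃ i, e i = v) ?_ ?_
    · rintro v ⟨i, rfl⟩; exact S.deg i
    · intro v hv
      obtain ⟨i, rfl, hi⟩ := merge_ne S.inj hv
      refine ⟨⟨i, rfl⟩, fun _ => ?_⟩
      by_cases hiG : i ∈ G.biUnion (vs C e)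
      · rw [mem_biUnion] at hiG
        obtain ⟨a, ha, hia⟩ := hiG
        exact ⟨a, ha, mem_vs.1 hia⟩
      · simp [hiG] at hi
  · intro a ha
    rw [← S.eval_congr (x := x)]
    · exact h.2 a ha
    · intro i hi
      have : i ∈ G.biUnion (vs C e) := mem_biUnion.2 ⟨a, ha, hi⟩
      simp [this]

/-- The split pairs of a set. -/
def Spl (Y : Finset V) (σ : V → V) (D : Finset V) : Finset V :=
  Y.filter fun y => ¬ (y ∈ D ↔ σ y ∈ D)

theorem Good.const (S : Sit C e ρ Y σ) {G : Finset C.G} {x x' : V → Bool} (h : Good C e ρ G x)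
    (h' : Good C e ρ G x') {y : V} (hy : y ∈ Spl Y σ (G.biUnion (vs C e))) : x y = x' y := by
  rw [Spl, mem_filter] at hy
  have h1 := (h.mix S h').acc S y hy.1
  have h2 := h.acc S y hy.1
  have h3 := h'.acc S y hy.1
  by_cases a : y ∈ G.biUnion (vs C e)
  · have b : σ y ∉ G.biUnion (vs C e) := fun hb => hy.2 ⟨fun _ => hb, fun _ => a⟩
    simp only [a, b, if_true, if_false] at h1
    rw [h1, h3]
  · have b : σ y ∈ G.biUnion (vs C e) := by
      by_contra hb
      exact hy.2 ⟨fun h => absurd h a, fun h => absurd h hb⟩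
    simp only [a, b, if_true, if_false] at h1
    rw [h1, ← h2]

open Classical in
theorem good_card (S : Sit C e ρ Y σ) (G : Finset C.G) :
    (univ.filter fun x : V → Bool => Good C e ρ G x).card ≤
      2 ^ (Y \ Spl Y σ (G.biUnion (vs C e))).card := by
  rw [← card_powerset]
  apply card_le_card_of_injOn (fun x => (Y \ Spl Y σ (G.biUnion (vs C e))).filter
    fun y => x y = true)
  · intro x _
    rw [mem_coe, mem_powerset]
    exact filter_subset _ _
  · intro x hx x' hx' he
    rw [mem_coe, mem_filter] at hx hx'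
    apply S.ext (hx.2.acc S) (hx'.2.acc S)
    intro y hy
    by_cases hs : y ∈ Spl Y σ (G.biUnion (vs C e))
    · exact hx.2.const S hx'.2 hs
    · have := congrArg (fun T => y ∈ T) he
      simp only [mem_filter, mem_sdiff, hy, hs, not_false_eq_true, and_self, true_and,
        eq_iff_iff] at this
      exact Bool.eq_iff_iff.2 this

open Classical in
/-- **Some cut splits few pairs.** -/
theorem exists_good (S : Sit C e ρ Y σ) {A : Finset I} (hA : ∀ i, e i ∈ A) {m : ℕ} (hm : 1 ≤ m)
    (τ : ℕ) (hτ : τ ≤ Fintype.card V) (s : ℕ)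
    (hs : ((heavy A m C).powerset.filter fun G => G.card ≤ nest A m (C.tree C.out) + 1).card ≤
      2 ^ s) : ∃ G ⊆ heavy A m C, G.card ≤ nest A m (C.tree C.out) + 1 ∧
        (G.biUnion (vs C e)).card ≤ τ ∧ τ ≤ (G.biUnion (vs C e)).card + 2 * m ∧
        (Spl Y σ (G.biUnion (vs C e))).card ≤ s := by
  by_contra hcon
  push Not at hcon
  set 𝒢 := (heavy A m C).powerset.filter fun G => G.card ≤ nest A m (C.tree C.out) + 1 with h𝒢
  set 𝒢' := 𝒢.filter fun G => (G.biUnion (vs C e)).card ≤ τ ∧
    τ ≤ (G.biUnion (vs C e)).card + 2 * m with h𝒢'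
  have hsub : (univ.filter fun x : V → Bool => ∀ y ∈ Y, x y = x (σ y)) ⊆
      𝒢'.biUnion fun G => univ.filter fun x : V → Bool => Good C e ρ G x := by
    intro x hx
    rw [mem_filter] at hx
    have hout : vs C e C.out = univ := vs_out S hx.2
    obtain ⟨G, g1, g2, g3, g4, g5⟩ := exists_cut S hA hm (x := x) (C.rank C.out + 1) C.out
      (Nat.lt_succ_self _) ⟨Use.out, (S.eval x).2 hx.2⟩ τ (by rw [hout, card_univ]; exact hτ)
    rw [mem_biUnion]
    refine ⟨G, ?_, mem_filter.2 ⟨mem_univ _, g1, fun a ha => (g2 a ha).1⟩⟩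
    rw [h𝒢', h𝒢, mem_filter, mem_filter, mem_powerset]
    exact ⟨⟨fun a ha => (g2 a ha).2, g3⟩, g4, g5⟩
  have h1 := S.acc_card.trans ((card_le_card hsub).trans card_biUnion_le)
  have h2 : ∀ G ∈ 𝒢', 2 ^ (s + 1) * (univ.filter fun x : V → Bool => Good C e ρ G x).card ≤
      2 ^ Y.card := by
    intro G hG
    rw [h𝒢', h𝒢, mem_filter, mem_filter, mem_powerset] at hG
    have h3 := hcon G hG.1.1 hG.1.2 hG.2.1 hG.2.2
    have h4 : Spl Y σ (G.biUnion (vs C e)) ⊆ Y := filter_subset _ _
    have h5 := card_sdiff_add_card_eq_card h4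
    calc _ ≤ 2 ^ (s + 1) * 2 ^ (Y \ Spl Y σ (G.biUnion (vs C e))).card :=
          Nat.mul_le_mul_left _ (good_card S G)
      _ = 2 ^ (s + 1 + (Y \ Spl Y σ (G.biUnion (vs C e))).card) := by rw [← pow_add]
      _ ≤ _ := Nat.pow_le_pow_right (by norm_num) (by omega)
  have h3 : 2 ^ (s + 1) * 2 ^ Y.card ≤ 2 ^ s * 2 ^ Y.card := by
    calc 2 ^ (s + 1) * 2 ^ Y.card ≤
          2 ^ (s + 1) * ∑ G ∈ 𝒢', (univ.filter fun x : V → Bool => Good C e ρ G x).card :=
          Nat.mul_le_mul_left _ h1
      _ = ∑ G ∈ 𝒢', 2 ^ (s + 1) * (univ.filter fun x : V → Bool => Good C e ρ G x).card := by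
          rw [mul_sum]
      _ ≤ ∑ _G ∈ 𝒢', 2 ^ Y.card := sum_le_sum h2
      _ = 𝒢'.card * 2 ^ Y.card := by rw [sum_const, smul_eq_mul]
      _ ≤ 2 ^ s * 2 ^ Y.card :=
          Nat.mul_le_mul_right _ ((card_filter_le _ _).trans hs)
  have h4 := Nat.le_of_mul_le_mul_right h3 (by positivity)
  rw [pow_succ] at h4
  have : 0 < 2 ^ s := by positivity
  omega

end

end Pool.Agent.TH708.Tre
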