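import Pool.Agent.TH708.Tre.Lay

/-!
# A layout that is bad for a given family
-/

set_option autoImplicit false
set_option linter.unusedSectionVars false

namespace Pool.Agent.TH708.Tre

open Finset Pool.Agent.TH708.Dec

open Classical in
theorem node_choice (hsa : T_sample) (hsh : T_shift) {τ s R : ℕ} (hτ : 1 ≤ τ) (hR : τ ^ 2 ≤ R)
    (ρ : ℝ) (hρ : 60 * ((τ : ℝ) ^ 2 + 1) / R + 16 * ((s : ℝ) + 1) / τ ≤ ρ) (x K : ℕ)
    (F : Finset (Finset ℕ)) (u : Finset ℕ → ℝ) (hu : ∀ D ∈ F, 0 ≤ u D) :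
    ∃ (a : ℕ) (Y₀ Y₀' Y₁ Y₁' : Finset ℕ), (R ≤ a ∧ a ≤ 3 * R) ∧
      (Y₀ ⊆ w₀ x a ∧ Y₀.card = a) ∧ (Y₀' ⊆ w₀' x a K ∧ Y₀'.card = a) ∧
      (Y₁ ⊆ w₁ R x a K ∧ Y₁.card = 4 * R - a) ∧
      (Y₁' ⊆ w₁' R x a K ∧ Y₁'.card = 4 * R - a) ∧
      ∑ D ∈ F.filter (fun D => Cst (τ ^ 2) s R x a K Y₀ Y₀' Y₁ Y₁' D), u D ≤
        ρ * ∑ D ∈ F, u D := by
  have hR1 : 1 ≤ R := (Nat.one_le_pow 2 τ hτ).trans hR
  obtain ⟨a, ha1, ha2, hA⟩ := hsh (τ ^ 2) R x K (K + 8 * R) hR1 F u hu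
  obtain ⟨Y₀, Y₀', b1, b2, b3, b4, hB⟩ := hsa τ s a hτ (hR.trans ha1) (w₀ x a) (w₀' x a K)
    (by simp only [w₀, Nat.card_Ico]; omega) (by simp only [w₀', Nat.card_Ico]; omega) F u hu
  obtain ⟨Y₁, Y₁', c1, c2, c3, c4, hC⟩ := hsa τ s (4 * R - a) hτ (hR.trans (by omega))
    (w₁ R x a K) (w₁' R x a K)
    (by simp only [w₁, Nat.card_Ico]; omega) (by simp only [w₁', Nat.card_Ico]; omega) F u hu
  refine ⟨a, Y₀, Y₀', Y₁, Y₁', ⟨ha1, ha2⟩, ⟨b1, b2⟩, ⟨b3, b4⟩, ⟨c1, c2⟩, ⟨c3, c4⟩, ?_⟩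
  set GA := F.filter fun D => Bd (τ ^ 2) R D (x + 2 * a) ∨ Bd (τ ^ 2) R D (x + 4 * a + K) ∨
    Bd (τ ^ 2) R D (x + 2 * a + (K + 8 * R)) with hGA
  set GB := F.filter fun D => (Dirty (τ ^ 2) D (w₀ x a) ∨ Dirty (τ ^ 2) D (w₀' x a K)) ∧
    Close s D Y₀ Y₀' with hGB
  set GC := F.filter fun D => (Dirty (τ ^ 2) D (w₁ R x a K) ∨ Dirty (τ ^ 2) D (w₁' R x a K)) ∧
    Close s D Y₁ Y₁' with hGC
  have sA := hA GA (filter_subset _ _) (fun D hD => (mem_filter.1 hD).2)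
  have sB := hB GB (filter_subset _ _) (fun D hD => (mem_filter.1 hD).2)
  have sC := hC GC (filter_subset _ _) (fun D hD => (mem_filter.1 hD).2)
  have hsub : F.filter (fun D => Cst (τ ^ 2) s R x a K Y₀ Y₀' Y₁ Y₁' D) ⊆ GA ∪ (GB ∪ GC) := by
    intro D hD
    rw [mem_filter] at hD
    rw [mem_union, mem_union, hGA, hGB, hGC, mem_filter, mem_filter, mem_filter]
    rcases hD.2 with h | h | h
    · exact Or.inl ⟨hD.1, h⟩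
    · exact Or.inr (Or.inl ⟨hD.1, h⟩)
    · exact Or.inr (Or.inr ⟨hD.1, h⟩)
  have hun : ∀ A B : Finset (Finset ℕ), A ⊆ F → B ⊆ F →
      ∑ D ∈ A ∪ B, u D ≤ ∑ D ∈ A, u D + ∑ D ∈ B, u D := by
    intro A B hA hB
    have h1 := sum_union_inter (s₁ := A) (s₂ := B) (f := u)
    have h2 : 0 ≤ ∑ D ∈ A ∩ B, u D := sum_nonneg fun D hD => hu D (hA (mem_inter.1 hD).1)
    linarith
  have hsF : ∀ {A : Finset (Finset ℕ)} {p : Finset ℕ → Prop} [DecidablePred p],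
      A = F.filter p → A ⊆ F := fun h => h ▸ filter_subset _ _
  have hGAF : GA ⊆ F := filter_subset _ _
  have hGBF : GB ⊆ F := filter_subset _ _
  have hGCF : GC ⊆ F := filter_subset _ _
  have h1 : ∑ D ∈ F.filter (fun D => Cst (τ ^ 2) s R x a K Y₀ Y₀' Y₁ Y₁' D), u D ≤
      ∑ D ∈ GA, u D + (∑ D ∈ GB, u D + ∑ D ∈ GC, u D) := by
    refine (sum_le_sum_of_subset_of_nonneg hsub fun D hD _ => ?_).trans ?_
    · rw [mem_union, mem_union] at hD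
      rcases hD with h | h | h
      · exact hu D (hGAF h)
      · exact hu D (hGBF h)
      · exact hu D (hGCF h)
    · refine (hun GA (GB ∪ GC) hGAF (union_subset hGBF hGCF)).trans ?_
      exact add_le_add le_rfl (hun GB GC hGBF hGCF)
  have hU : 0 ≤ ∑ D ∈ F, u D := sum_nonneg hu
  have hRR : (0 : ℝ) < R := by exact_mod_cast hR1
  have hττ : (0 : ℝ) < τ := by exact_mod_cast hτ
  have tA : ∑ D ∈ GA, u D ≤ 60 * ((τ : ℝ) ^ 2 + 1) / R * ∑ D ∈ F, u D := by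
    rw [div_mul_eq_mul_div, le_div_iff₀ hRR, mul_comm]
    push_cast at sA
    linarith
  have tB : ∑ D ∈ GB, u D ≤ 8 * ((s : ℝ) + 1) / τ * ∑ D ∈ F, u D := by
    rw [div_mul_eq_mul_div, le_div_iff₀ hττ, mul_comm]
    linarith
  have tC : ∑ D ∈ GC, u D ≤ 8 * ((s : ℝ) + 1) / τ * ∑ D ∈ F, u D := by
    rw [div_mul_eq_mul_div, le_div_iff₀ hττ, mul_comm]
    linarith
  have h2 : 60 * ((τ : ℝ) ^ 2 + 1) / R * ∑ D ∈ F, u D + (8 * ((s : ℝ) + 1) / τ * ∑ D ∈ F, u D +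
      8 * ((s : ℝ) + 1) / τ * ∑ D ∈ F, u D) =
      (60 * ((τ : ℝ) ^ 2 + 1) / R + 16 * ((s : ℝ) + 1) / τ) * ∑ D ∈ F, u D := by ring
  have h3 := mul_le_mul_of_nonneg_right hρ hU
  linarith

/-- **Greedy choice of a layout.** -/
theorem greedy (hsa : T_sample) (hsh : T_shift) {τ s R : ℕ} (hτ : 1 ≤ τ) (hR : τ ^ 2 ≤ R)
    (ρ z : ℝ) (hρ : 60 * ((τ : ℝ) ^ 2 + 1) / R + 16 * ((s : ℝ) + 1) / τ ≤ ρ) (hz : 0 ≤ z) :
    ∀ (ℓ x : ℕ) (F : Finset (Finset ℕ)) (u : Finset ℕ → ℝ), (∀ D ∈ F, 0 ≤ u D) →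
      ∃ T : Lay ℓ, Valid R x T ∧ ∑ D ∈ F, u D * z ^ (cost (τ ^ 2) s R D x T) ≤
        (1 + z * ρ) ^ (2 ^ ℓ - 1) * ∑ D ∈ F, u D := by
  classical
  have hρ0 : 0 ≤ ρ := le_trans (by positivity) hρ
  intro ℓ
  induction ℓ with
  | zero =>
    intro x F u hu
    refine ⟨Lay.leaf, trivial, ?_⟩
    simp [cost]
  | succ ℓ ih =>
    intro x F u hu
    obtain ⟨a, Y₀, Y₀', Y₁, Y₁', v1, v2, v3, v4, v5, hsum⟩ := node_choice hsa hsh hτ hR ρ hρ x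
      (len R ℓ) F u hu
    let C : Finset ℕ → Prop := fun D => Cst (τ ^ 2) s R x a (len R ℓ) Y₀ Y₀' Y₁ Y₁' D
    let u1 : Finset ℕ → ℝ := fun D => u D * z ^ (if C D then 1 else 0)
    have hu1 : ∀ D ∈ F, 0 ≤ u1 D := fun D hD => mul_nonneg (hu D hD) (pow_nonneg hz _)
    obtain ⟨l, vl, el⟩ := ih (x + 2 * a) F u1 hu1
    let u2 : Finset ℕ → ℝ := fun D => u1 D * z ^ (cost (τ ^ 2) s R D (x + 2 * a) l)
    have hu2 : ∀ D ∈ F, 0 ≤ u2 D := fun D hD => mul_nonneg (hu1 D hD) (pow_nonneg hz _)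
    obtain ⟨r, vr, er⟩ := ih (x + 2 * a + (len R ℓ + 8 * R)) F u2 hu2
    refine ⟨Lay.node a Y₀ Y₀' Y₁ Y₁' l r, ⟨v1, v2, v3, v4, v5, vl, vr⟩, ?_⟩
    have h1 : ∑ D ∈ F, u1 D ≤ (1 + z * ρ) * ∑ D ∈ F, u D := by
      have h2 : ∀ D ∈ F, u1 D ≤ u D + z * (if C D then u D else 0) := by
        intro D hD
        have := hu D hD
        simp only [u1]
        split_ifs with hc
        · rw [pow_one]; nlinarith
        · simp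
      refine (sum_le_sum h2).trans ?_
      rw [sum_add_distrib, ← mul_sum, ← sum_filter]
      have h3 := mul_le_mul_of_nonneg_left hsum hz
      have h4 : (1 + z * ρ) * ∑ D ∈ F, u D = ∑ D ∈ F, u D + z * (ρ * ∑ D ∈ F, u D) := by ring
      rw [h4]
      linarith
    have h5 : ∑ D ∈ F, u D * z ^ (cost (τ ^ 2) s R D x (Lay.node a Y₀ Y₀' Y₁ Y₁' l r)) =
        ∑ D ∈ F, u2 D * z ^ (cost (τ ^ 2) s R D (x + 2 * a + (len R ℓ + 8 * R)) r) := by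
      refine sum_congr rfl fun D _ => ?_
      simp only [u2, u1, cost, C]
      rw [pow_add, pow_add]
      ring
    rw [h5]
    have hb : 0 ≤ 1 + z * ρ := by positivity
    have h6 : 2 ^ (ℓ + 1) - 1 = (2 ^ ℓ - 1) + ((2 ^ ℓ - 1) + 1) := by
      have : 1 ≤ 2 ^ ℓ := Nat.one_le_two_pow
      rw [pow_succ]; omega
    calc _ ≤ (1 + z * ρ) ^ (2 ^ ℓ - 1) * ∑ D ∈ F, u2 D := er
      _ ≤ (1 + z * ρ) ^ (2 ^ ℓ - 1) * ((1 + z * ρ) ^ (2 ^ ℓ - 1) * ∑ D ∈ F, u1 D) :=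
          mul_le_mul_of_nonneg_left el (pow_nonneg hb _)
      _ ≤ (1 + z * ρ) ^ (2 ^ ℓ - 1) * ((1 + z * ρ) ^ (2 ^ ℓ - 1) *
            ((1 + z * ρ) * ∑ D ∈ F, u D)) :=
          mul_le_mul_of_nonneg_left (mul_le_mul_of_nonneg_left h1 (pow_nonneg hb _))
            (pow_nonneg hb _)
      _ = _ := by rw [h6, pow_add, pow_add, pow_one]; ring

end Pool.Agent.TH708.Tre
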