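import Mathlib

/-!
# One third is far from short sums of signed powers of two
-/

set_option autoImplicit false

namespace Pool.Agent.TH708.Tre

/-- Sums of `r` terms `ε 2 ^ j` with `ε ∈ {-1, 0, 1}`. -/
inductive Rep : ℕ → ℤ → Prop
  | zero : Rep 0 0
  | add {r : ℕ} {M : ℤ} (j : ℕ) (ε : ℤ) (h : ε = 1 ∨ ε = -1 ∨ ε = 0) :
      Rep r M → Rep (r + 1) (M + ε * 2 ^ j)

theorem Rep.sum {r r' : ℕ} {M M' : ℤ} (h : Rep r M) (h' : Rep r' M') :
    Rep (r + r') (M + M') := by
  induction h' with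
  | zero => simpa using h
  | add j ε hε _ ih =>
    have := Rep.add j ε hε ih
    rw [← add_assoc, ← add_assoc]
    exact this

/-- Signed binary expansions with at most `r` nonzero digits. -/
inductive Dig : ℕ → ℤ → Prop
  | zero (r : ℕ) : Dig r 0
  | dbl {r : ℕ} {M : ℤ} : Dig r M → Dig r (2 * M)
  | odd {r : ℕ} {M : ℤ} (ε : ℤ) (h : ε = 1 ∨ ε = -1) : Dig r M → Dig (r + 1) (2 * M + ε)

theorem Dig.succ {r : ℕ} {M : ℤ} (h : Dig r M) : Dig (r + 1) M := by
  induction h with
  | zero r => exact Dig.zero _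
  | dbl _ ih => exact ih.dbl
  | odd ε hε _ ih => exact ih.odd ε hε

theorem Dig.inc {r : ℕ} {M : ℤ} (h : Dig r M) (ε : ℤ) (hε : ε = 1 ∨ ε = -1) :
    Dig (r + 1) (M + ε) := by
  induction h with
  | zero r => simpa using (Dig.zero r).odd ε hε
  | dbl h _ => exact h.odd ε hε
  | @odd r M ε' hε' h ih =>
    by_cases he : ε' = ε
    · subst he
      have := ih.dbl.succ
      have h2 : 2 * (M + ε') = 2 * M + ε' + ε' := by ring
      rwa [h2] at this
    · have he' : ε' + ε = 0 := by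
        rcases hε with rfl | rfl <;> rcases hε' with rfl | rfl <;> simp_all
      have h2 : 2 * M + ε' + ε = 2 * M := by linarith
      rw [h2]
      exact h.succ.succ.dbl

theorem Dig.add_pow (ε : ℤ) (hε : ε = 1 ∨ ε = -1) (j : ℕ) : ∀ {r : ℕ} {M : ℤ}, Dig r M →
    Dig (r + 1) (M + ε * 2 ^ j) := by
  induction j with
  | zero => intro r M h; simpa using h.inc ε hε
  | succ j ih =>
    intro r M h
    cases h with
    | zero =>
      have := (ih (Dig.zero r)).dbl
      have h2 : 2 * (0 + ε * 2 ^ j) = 0 + ε * 2 ^ (j + 1) := by ring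
      rwa [h2] at this
    | @dbl _ M' h =>
      have := (ih h).dbl
      have h2 : 2 * (M' + ε * 2 ^ j) = 2 * M' + ε * 2 ^ (j + 1) := by ring
      rwa [h2] at this
    | @odd r' M' ε' hε' h =>
      have := (ih h).odd ε' hε'
      have h2 : 2 * (M' + ε * 2 ^ j) + ε' = 2 * M' + ε' + ε * 2 ^ (j + 1) := by ring
      rwa [h2] at this

theorem Rep.dig {r : ℕ} {M : ℤ} (h : Rep r M) : Dig r M := by
  induction h with
  | zero => exact Dig.zero 0
  | add j ε hε _ ih =>
    rcases hε with h | h | h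
    · exact Dig.add_pow ε (Or.inl h) j ih
    · exact Dig.add_pow ε (Or.inr h) j ih
    · subst h
      simpa using ih.succ

theorem Dig.far {r : ℕ} {M : ℤ} (h : Dig r M) : ∀ k : ℕ, (2 : ℤ) ^ k ≤ |3 * M - 2 ^ k| * 4 ^ r := by
  induction h with
  | zero r =>
    intro k
    have h1 : |(3 : ℤ) * 0 - 2 ^ k| = 2 ^ k := by
      rw [mul_zero, zero_sub, abs_neg, abs_of_nonneg (by positivity)]
    rw [h1]
    exact le_mul_of_one_le_right (by positivity) (one_le_pow₀ (by norm_num))
  | @dbl r M _ ih =>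
    intro k
    cases k with
    | zero =>
      have h1 : 1 ≤ |3 * (2 * M) - 2 ^ 0| := by
        apply Int.one_le_abs
        omega
      have h2 : (1 : ℤ) ≤ 4 ^ r := one_le_pow₀ (by norm_num)
      calc (2 : ℤ) ^ 0 = 1 * 1 := by norm_num
        _ ≤ _ := mul_le_mul h1 h2 (by norm_num) (by positivity)
    | succ k =>
      have h1 := ih k
      have h2 : |3 * (2 * M) - 2 ^ (k + 1)| = 2 * |3 * M - 2 ^ k| := by
        rw [show 3 * (2 * M) - 2 ^ (k + 1) = 2 * (3 * M - 2 ^ k) by ring, abs_mul]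
        norm_num
      rw [h2, pow_succ]
      linarith
  | @odd r M ε hε _ ih =>
    intro k
    have h4 : (1 : ℤ) ≤ 4 ^ r := one_le_pow₀ (by norm_num)
    cases k with
    | zero =>
      have h1 : 1 ≤ |3 * (2 * M + ε) - 2 ^ 0| := by
        apply Int.one_le_abs
        omega
      have h2 : (1 : ℤ) ≤ 4 ^ (r + 1) := one_le_pow₀ (by norm_num)
      calc (2 : ℤ) ^ 0 = 1 * 1 := by norm_num
        _ ≤ _ := mul_le_mul h1 h2 (by norm_num) (by positivity)
    | succ k =>
      have h1 := ih k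
      obtain ⟨A, hA⟩ : ∃ A, A = |3 * M - 2 ^ k| := ⟨_, rfl⟩
      rw [← hA] at h1
      have hA1 : 1 ≤ A := by
        by_contra hc
        push Not at hc
        have hA0 : A = 0 := by
          have : 0 ≤ A := hA ▸ abs_nonneg _
          omega
        rw [hA0] at h1
        have : (0 : ℤ) < 2 ^ k := by positivity
        linarith
      have h5 : 2 * A ≤ |3 * (2 * M + ε) - 2 ^ (k + 1)| * 4 := by
        rw [pow_succ]
        rcases abs_cases (3 * M - 2 ^ k) with ⟨h6, _⟩ | ⟨h6, _⟩ <;>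
        rcases abs_cases (3 * (2 * M + ε) - 2 ^ k * 2) with ⟨h7, _⟩ | ⟨h7, _⟩ <;>
        rcases hε with rfl | rfl <;> rw [h7] <;> rw [h6] at hA <;> omega
      calc (2 : ℤ) ^ (k + 1) = 2 * 2 ^ k := by ring
        _ ≤ 2 * (A * 4 ^ r) := by linarith
        _ = (2 * A) * 4 ^ r := by ring
        _ ≤ (|3 * (2 * M + ε) - 2 ^ (k + 1)| * 4) * 4 ^ r :=
            mul_le_mul_of_nonneg_right h5 (by positivity)
        _ = _ := by ring

end Pool.Agent.TH708.Tre
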