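import Pool.Agent.TH708.Tre.Defs
import Pool.Agent.TH708.Tre.Num

/-!
# Layouts: a binary tree of bundles
-/

set_option autoImplicit false
set_option linter.unusedSectionVars false

namespace Pool.Agent.TH708.Tre

open Finset Pool.Agent.TH708.Dec

/-- The length of a core of height `ℓ`. -/
def len (R : ℕ) : ℕ → ℕ
  | 0 => 0
  | ℓ + 1 => 16 * R + 2 * len R ℓ

/-- Layouts of height `ℓ`: a shift and four sets of active positions at every inner node. -/
inductive Lay : ℕ → Type
  | leaf : Lay 0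
  | node {ℓ : ℕ} (a : ℕ) (Y₀ Y₀' Y₁ Y₁' : Finset ℕ) (l r : Lay ℓ) : Lay (ℓ + 1)

/-- The four windows of a node with start `x`, shift `a` and height `ℓ + 1`. -/
def w₀ (x a : ℕ) : Finset ℕ := Ico x (x + 2 * a)
/-- second window -/
def w₀' (x a K : ℕ) : Finset ℕ := Ico (x + 2 * a + K) (x + 4 * a + K)
/-- third window -/
def w₁ (R x a K : ℕ) : Finset ℕ := Ico (x + 4 * a + K) (x + 2 * a + (K + 8 * R))
/-- fourth window -/
def w₁' (R x a K : ℕ) : Finset ℕ := Ico (x + 2 * a + (2 * K + 8 * R)) (x + (16 * R + 2 * K))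

/-- Well-formed layouts. -/
def Valid (R : ℕ) : {ℓ : ℕ} → ℕ → Lay ℓ → Prop
  | _, _, .leaf => True
  | ℓ + 1, x, .node a Y₀ Y₀' Y₁ Y₁' l r => (R ≤ a ∧ a ≤ 3 * R) ∧
      (Y₀ ⊆ w₀ x a ∧ Y₀.card = a) ∧ (Y₀' ⊆ w₀' x a (len R ℓ) ∧ Y₀'.card = a) ∧
      (Y₁ ⊆ w₁ R x a (len R ℓ) ∧ Y₁.card = 4 * R - a) ∧
      (Y₁' ⊆ w₁' R x a (len R ℓ) ∧ Y₁'.card = 4 * R - a) ∧
      Valid R (x + 2 * a) l ∧ Valid R (x + 2 * a + (len R ℓ + 8 * R)) r

/-- The active positions. -/
def act : {ℓ : ℕ} → Lay ℓ → Finset ℕ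
  | _, .leaf => ∅
  | _, .node _ Y₀ Y₀' Y₁ Y₁' l r => ((Y₀ ∪ Y₀') ∪ (Y₁ ∪ Y₁')) ∪ (act l ∪ act r)

/-- All bundles are almost closed. -/
def AllClose (s : ℕ) (D : Finset ℕ) : {ℓ : ℕ} → Lay ℓ → Prop
  | _, .leaf => True
  | _, .node _ Y₀ Y₀' Y₁ Y₁' l r => Close s D Y₀ Y₀' ∧ Close s D Y₁ Y₁' ∧ AllClose s D l ∧
      AllClose s D r

/-- A rare event at a node. -/
def Cst (t s R x a K : ℕ) (Y₀ Y₀' Y₁ Y₁' D : Finset ℕ) : Prop :=
  (Bd t R D (x + 2 * a) ∨ Bd t R D (x + 4 * a + K) ∨ Bd t R D (x + 2 * a + (K + 8 * R))) ∨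
    ((Dirty t D (w₀ x a) ∨ Dirty t D (w₀' x a K)) ∧ Close s D Y₀ Y₀') ∨
      ((Dirty t D (w₁ R x a K) ∨ Dirty t D (w₁' R x a K)) ∧ Close s D Y₁ Y₁')

open Classical in
/-- The number of nodes with a rare event. -/
noncomputable def cost (t s R : ℕ) (D : Finset ℕ) : {ℓ : ℕ} → ℕ → Lay ℓ → ℕ
  | _, _, .leaf => 0
  | ℓ + 1, x, .node a Y₀ Y₀' Y₁ Y₁' l r =>
    (if Cst t s R x a (len R ℓ) Y₀ Y₀' Y₁ Y₁' D then 1 else 0) +
      (cost t s R D (x + 2 * a) l + cost t s R D (x + 2 * a + (len R ℓ + 8 * R)) r)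

theorem act_sub {R : ℕ} : ∀ {ℓ : ℕ} (x : ℕ) (T : Lay ℓ), Valid R x T →
    ∀ i ∈ act T, x ≤ i ∧ i < x + len R ℓ := by
  intro ℓ
  induction ℓ with
  | zero => intro x T _ i hi; cases T; simp [act] at hi
  | succ ℓ ih =>
    intro x T hT i hi
    cases T with
    | node a Y₀ Y₀' Y₁ Y₁' l r =>
      obtain ⟨⟨h1, h2⟩, ⟨h3, _⟩, ⟨h4, _⟩, ⟨h5, _⟩, ⟨h6, _⟩, h7, h8⟩ := hT
      simp only [act, mem_union] at hi
      simp only [len]
      rcases hi with ((hi | hi) | (hi | hi)) | (hi | hi)
      · have := h3 hi; simp only [w₀, mem_Ico] at this; omega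
      · have := h4 hi; simp only [w₀', mem_Ico] at this; omega
      · have := h5 hi; simp only [w₁, mem_Ico] at this; omega
      · have := h6 hi; simp only [w₁', mem_Ico] at this; omega
      · have := ih _ _ h7 i hi; omega
      · have := ih _ _ h8 i hi; omega

/-- The pieces of a node are disjoint. -/
theorem node_parts {R ℓ x a : ℕ} {Y₀ Y₀' Y₁ Y₁' : Finset ℕ} {l r : Lay ℓ}
    (hT : Valid R x (Lay.node a Y₀ Y₀' Y₁ Y₁' l r)) (D : Finset ℕ) :
    (act (Lay.node a Y₀ Y₀' Y₁ Y₁' l r) ∩ D).card =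
      ((Y₀ ∩ D).card + (Y₀' ∩ D).card + ((Y₁ ∩ D).card + (Y₁' ∩ D).card)) +
        ((act l ∩ D).card + (act r ∩ D).card) := by
  obtain ⟨⟨h1, h2⟩, ⟨h3, _⟩, ⟨h4, _⟩, ⟨h5, _⟩, ⟨h6, _⟩, h7, h8⟩ := hT
  have b0 : ∀ i ∈ Y₀, x ≤ i ∧ i < x + 2 * a := fun i hi => by
    have := h3 hi; simpa only [w₀, mem_Ico] using this
  have b0' : ∀ i ∈ Y₀', x + 2 * a + len R ℓ ≤ i ∧ i < x + 4 * a + len R ℓ := fun i hi => by
    have := h4 hi; simpa only [w₀', mem_Ico] using this
  have b1 : ∀ i ∈ Y₁, x + 4 * a + len R ℓ ≤ i ∧ i < x + 2 * a + (len R ℓ + 8 * R) :=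
    fun i hi => by have := h5 hi; simpa only [w₁, mem_Ico] using this
  have b1' : ∀ i ∈ Y₁', x + 2 * a + (2 * len R ℓ + 8 * R) ≤ i ∧ i < x + (16 * R + 2 * len R ℓ) :=
    fun i hi => by have := h6 hi; simpa only [w₁', mem_Ico] using this
  have bl := act_sub (x + 2 * a) l h7
  have br := act_sub (x + 2 * a + (len R ℓ + 8 * R)) r h8
  have hd : ∀ {A B : Finset ℕ}, (∀ i ∈ A, ∀ j ∈ B, i ≠ j) → Disjoint (A ∩ D) (B ∩ D) := by
    intro A B h
    rw [disjoint_left]
    intro i hi hj
    exact h i (mem_inter.1 hi).1 i (mem_inter.1 hj).1 rfl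
  simp only [act]
  rw [union_inter_distrib_right, union_inter_distrib_right, union_inter_distrib_right,
    union_inter_distrib_right, union_inter_distrib_right]
  rw [card_union_of_disjoint, card_union_of_disjoint, card_union_of_disjoint,
    card_union_of_disjoint, card_union_of_disjoint]
  · apply hd
    intro i hi j hj
    have := bl i hi; have := br j hj; omega
  · apply hd
    intro i hi j hj
    have := b1 i hi; have := b1' j hj; omega
  · apply hd
    intro i hi j hj
    have := b0 i hi; have := b0' j hj; omega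
  · rw [← union_inter_distrib_right, ← union_inter_distrib_right]
    apply hd
    intro i hi j hj
    rw [mem_union] at hi hj
    rcases hi with hi | hi <;> rcases hj with hj | hj
    · have := b0 i hi; have := b1 j hj; omega
    · have := b0 i hi; have := b1' j hj; omega
    · have := b0' i hi; have := b1 j hj; omega
    · have := b0' i hi; have := b1' j hj; omega
  · rw [← union_inter_distrib_right, ← union_inter_distrib_right, ← union_inter_distrib_right,
      ← union_inter_distrib_right]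
    apply hd
    intro i hi j hj
    rw [mem_union, mem_union, mem_union] at hi
    rw [mem_union] at hj
    rcases hi with (hi | hi) | (hi | hi) <;> rcases hj with hj | hj
    · have := b0 i hi; have := bl j hj; omega
    · have := b0 i hi; have := br j hj; omega
    · have := b0' i hi; have := bl j hj; omega
    · have := b0' i hi; have := br j hj; omega
    · have := b1 i hi; have := bl j hj; omega
    · have := b1 i hi; have := br j hj; omega
    · have := b1' i hi; have := bl j hj; omega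
    · have := b1' i hi; have := br j hj; omega

theorem act_card {R : ℕ} : ∀ {ℓ : ℕ} (x : ℕ) (T : Lay ℓ), Valid R x T →
    (act T).card + 8 * R = 8 * R * 2 ^ ℓ := by
  intro ℓ
  induction ℓ with
  | zero => intro x T _; cases T; simp [act]
  | succ ℓ ih =>
    intro x T hT
    cases T with
    | node a Y₀ Y₀' Y₁ Y₁' l r =>
      have h := node_parts hT (act (Lay.node a Y₀ Y₀' Y₁ Y₁' l r))
      have hs : ∀ A : Finset ℕ, A ⊆ act (Lay.node a Y₀ Y₀' Y₁ Y₁' l r) →
          A ∩ act (Lay.node a Y₀ Y₀' Y₁ Y₁' l r) = A := fun A hA => inter_eq_left.2 hA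
      rw [inter_self, hs Y₀, hs Y₀', hs Y₁, hs Y₁', hs (act l), hs (act r)] at h
      · obtain ⟨⟨h1, h2⟩, ⟨_, h3⟩, ⟨_, h4⟩, ⟨_, h5⟩, ⟨_, h6⟩, h7, h8⟩ := hT
        have e1 := ih _ _ h7
        have e2 := ih _ _ h8
        rw [h, h3, h4, h5, h6, pow_succ]
        have : 8 * R * (2 ^ ℓ * 2) = 8 * R * 2 ^ ℓ + 8 * R * 2 ^ ℓ := by ring
        rw [this]
        omega
      all_goals
        intro i hi
        simp only [act, mem_union]
        tauto

/-- The layout may have the colour `c` at its start. -/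
def RootCol (t s R x : ℕ) (c : Bool) (D : Finset ℕ) : {ℓ : ℕ} → Lay ℓ → Prop
  | _, .leaf => True
  | ℓ + 1, .node a Y₀ Y₀' Y₁ Y₁' _ _ => Cst t s R x a (len R ℓ) Y₀ Y₀' Y₁ Y₁' D ∨
      err c D (w₀ x a) ≤ t

theorem err_mono {c : Bool} {D Z Z' : Finset ℕ} (h : Z ⊆ Z') : err c D Z ≤ err c D Z' := by
  unfold err
  split_ifs
  · exact card_le_card (sdiff_subset_sdiff h Subset.rfl)
  · exact card_le_card (inter_subset_inter h Subset.rfl)

theorem not_dirty {t : ℕ} {D Z : Finset ℕ} (h : ¬ Dirty t D Z) : ∃ c : Bool, err c D Z ≤ t := by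
  unfold Dirty at h
  rw [not_and_or] at h
  rcases h with h | h
  · exact ⟨false, by simp only [err, Bool.false_eq_true, if_false]; omega⟩
  · exact ⟨true, by simp only [err, if_true]; omega⟩

theorem err_cases {t : ℕ} {c : Bool} {D Z : Finset ℕ} (h : ¬ Dirty t D Z)
    (h' : ¬ err c D Z ≤ t) : err (!c) D Z ≤ t := by
  obtain ⟨c', hc⟩ := not_dirty h
  cases c <;> cases c' <;> simp_all

/-- Almost closed bundles have the same colour on both sides. -/
theorem same_col {t s b : ℕ} {c : Bool} {D Y Y' Z Z' : Finset ℕ} (hY : Y ⊆ Z) (hY' : Y' ⊆ Z')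
    (hc : Y.card = b) (hc' : Y'.card = b) (hcl : Close s D Y Y') (hb : 2 * t + s < b)
    (h : err c D Z ≤ t) (hd : ¬ Dirty t D Z') : err c D Z' ≤ t := by
  by_contra hcon
  have h1 := err_cases hd hcon
  have h2 := (err_mono (c := c) (D := D) hY).trans h
  have h3 := (err_mono (c := !c) (D := D) hY').trans h1
  have e1 : (Y \ D).card + (Y ∩ D).card = Y.card := card_sdiff_add_card_inter _ _
  have e2 : (Y' \ D).card + (Y' ∩ D).card = Y'.card := card_sdiff_add_card_inter _ _
  unfold Close at hcl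
  cases c
  · simp only [err, Bool.not_false, if_true, Bool.false_eq_true, if_false] at h2 h3
    omega
  · simp only [err, Bool.not_true, if_true, Bool.false_eq_true, if_false] at h2 h3
    omega

theorem root_exists {t s R x : ℕ} {D : Finset ℕ} : ∀ {ℓ : ℕ} (T : Lay ℓ), AllClose s D T →
    ∃ c, RootCol t s R x c D T := by
  intro ℓ T hT
  cases T with
  | leaf => exact ⟨true, trivial⟩
  | @node ℓ a Y₀ Y₀' Y₁ Y₁' l r =>
    by_cases hc : Cst t s R x a (len R ℓ) Y₀ Y₀' Y₁ Y₁' D
    · exact ⟨true, Or.inl hc⟩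
    · have h1 : ¬ Dirty t D (w₀ x a) := by
        intro hd
        exact hc (Or.inr (Or.inl ⟨Or.inl hd, hT.1⟩))
      obtain ⟨c, h⟩ := not_dirty h1
      exact ⟨c, Or.inr h⟩

theorem child_col {t s R x : ℕ} {c : Bool} {D : Finset ℕ} :
    ∀ {ℓ : ℕ} (T : Lay ℓ), Valid R x T → AllClose s D T →
    ¬ Bd t R D x → err c D (Ico (x - 2 * R) x) ≤ t → RootCol t s R x c D T := by
  intro ℓ T hV hT hbd herr
  cases T with
  | leaf => trivial
  | @node ℓ a' Y₀ Y₀' Y₁ Y₁' l r =>
    by_cases hc : Cst t s R x a' (len R ℓ) Y₀ Y₀' Y₁ Y₁' D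
    · exact Or.inl hc
    · right
      have h1 : ¬ Dirty t D (w₀ x a') := by
        intro hd
        exact hc (Or.inr (Or.inl ⟨Or.inl hd, hT.1⟩))
      by_contra hcon
      have h2 := err_cases h1 hcon
      apply hbd
      refine ⟨c, herr, (err_mono ?_).trans h2⟩
      intro i hi
      rw [mem_Ico] at hi
      simp only [w₀, mem_Ico]
      have := hV.1.1
      omega

/-- **The number of elements of `D`** in terms of signed powers of two. -/
theorem det_main {t s R : ℕ} {D : Finset ℕ} (hR : 2 * t + s < R) :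
    ∀ {ℓ : ℕ} (x : ℕ) (T : Lay ℓ), Valid R x T → AllClose s D T → ∀ c : Bool,
      RootCol t s R x c D T → ∃ M : ℤ, Rep (cost t s R D x T) M ∧
        |((act T ∩ D).card : ℤ) - 8 * R * ((if c then 1 else 0) * (2 ^ ℓ - 1) + M)| ≤
          24 * R * cost t s R D x T + 4 * t * (2 ^ ℓ - 1) := by
  classical
  intro ℓ
  induction ℓ with
  | zero =>
    intro x T _ _ c _
    cases T
    exact ⟨0, Rep.zero, by simp [act, cost]⟩
  | succ ℓ ih =>
    intro x T hV hA c hroot
    cases T with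
    | node a Y₀ Y₀' Y₁ Y₁' l r =>
      have hparts := node_parts hV D
      obtain ⟨⟨h1, h2⟩, ⟨h3, h3'⟩, ⟨h4, h4'⟩, ⟨h5, h5'⟩, ⟨h6, h6'⟩, h7, h8⟩ := hV
      obtain ⟨hA0, hA1, hAl, hAr⟩ := hA
      have u0 : (Y₀ \ D).card + (Y₀ ∩ D).card = Y₀.card := card_sdiff_add_card_inter _ _
      have u0' : (Y₀' \ D).card + (Y₀' ∩ D).card = Y₀'.card := card_sdiff_add_card_inter _ _
      have u1 : (Y₁ \ D).card + (Y₁ ∩ D).card = Y₁.card := card_sdiff_add_card_inter _ _
      have u1' : (Y₁' \ D).card + (Y₁' ∩ D).card = Y₁'.card := card_sdiff_add_card_inter _ _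
      have hpow : (2 : ℤ) ^ (ℓ + 1) = 2 * 2 ^ ℓ := by rw [pow_succ]; ring
      by_cases hC : Cst t s R x a (len R ℓ) Y₀ Y₀' Y₁ Y₁' D
      · -- a rare event
        obtain ⟨cl, hcl⟩ := root_exists (t := t) (s := s) (R := R) (x := x + 2 * a) l hAl
        obtain ⟨cr, hcr⟩ := root_exists (t := t) (s := s) (R := R)
          (x := x + 2 * a + (len R ℓ + 8 * R)) r hAr
        obtain ⟨Ml, r1, e1⟩ := ih _ l h7 hAl cl hcl
        obtain ⟨Mr, r2, e2⟩ := ih _ r h8 hAr cr hcr
        have hcost : cost t s R D x (Lay.node a Y₀ Y₀' Y₁ Y₁' l r) =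
            cost t s R D (x + 2 * a) l + cost t s R D (x + 2 * a + (len R ℓ + 8 * R)) r + 1 := by
          simp only [cost]
          rw [if_pos hC]; ring
        rw [hcost]
        have key : ∃ (j : ℕ) (ε : ℤ), (ε = 1 ∨ ε = -1 ∨ ε = 0) ∧ ε * 2 ^ j =
            (if cl then 1 else 0) * 2 ^ ℓ + (if cr then 1 else 0) * 2 ^ ℓ -
              (if c then 1 else 0) * 2 ^ (ℓ + 1) := by
          rw [hpow]
          cases c <;> cases cl <;> cases cr
          · exact ⟨0, 0, by simp, by simp⟩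
          · exact ⟨ℓ, 1, by simp, by simp⟩
          · exact ⟨ℓ, 1, by simp, by simp⟩
          · exact ⟨ℓ + 1, 1, by simp, by rw [hpow]; simp; ring⟩
          · exact ⟨ℓ + 1, -1, by simp, by rw [hpow]; simp⟩
          · exact ⟨ℓ, -1, by simp, by simp; ring⟩
          · exact ⟨ℓ, -1, by simp, by simp; ring⟩
          · exact ⟨0, 0, by simp, by simp; ring⟩
        obtain ⟨j, ε, hε, hj⟩ := key
        refine ⟨Ml + Mr + ε * 2 ^ j, Rep.add j ε hε (r1.sum r2), ?_⟩
        rw [hj, hparts]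
        have hown : ((Y₀ ∩ D).card + (Y₀' ∩ D).card + ((Y₁ ∩ D).card + (Y₁' ∩ D).card) : ℕ) ≤
            8 * R := by omega
        obtain ⟨o, ho⟩ : ∃ o, o = (Y₀ ∩ D).card + (Y₀' ∩ D).card +
          ((Y₁ ∩ D).card + (Y₁' ∩ D).card) := ⟨_, rfl⟩
        rw [← ho] at hown ⊢
        rw [hpow]
        push_cast
        rw [abs_le] at e1 e2 ⊢
        have hR0 : (0 : ℤ) ≤ R := Int.natCast_nonneg _
        have ho0 : (0 : ℤ) ≤ o := Int.natCast_nonneg _
        have hoR : (o : ℤ) ≤ 8 * R := by exact_mod_cast hown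
        have ht0 : (0 : ℤ) ≤ t := Int.natCast_nonneg _
        have key2 : (o : ℤ) + (((act l ∩ D).card : ℤ) + (act r ∩ D).card) -
            8 * R * ((if c then 1 else 0) * (2 * 2 ^ ℓ - 1) + (Ml + Mr +
              ((if cl then 1 else 0) * 2 ^ ℓ + (if cr then 1 else 0) * 2 ^ ℓ -
              (if c then 1 else 0) * (2 * 2 ^ ℓ)))) =
            (((act l ∩ D).card : ℤ) - 8 * R * ((if cl then 1 else 0) * (2 ^ ℓ - 1) + Ml)) +
            (((act r ∩ D).card : ℤ) - 8 * R * ((if cr then 1 else 0) * (2 ^ ℓ - 1) + Mr)) +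
            (o + 8 * R * (if c then 1 else 0) - 8 * R * (if cl then 1 else 0) -
              8 * R * (if cr then 1 else 0)) := by ring
        rw [key2]
        have hc01 : ∀ b : Bool, (0 : ℤ) ≤ 8 * R * (if b then 1 else 0) ∧
            8 * R * (if b then 1 else 0) ≤ (8 * R : ℤ) := by
          intro b; cases b <;> simp
        have q1 := hc01 c
        have q2 := hc01 cl
        have q3 := hc01 cr
        generalize ((act l ∩ D).card : ℤ) - 8 * R * ((if cl then 1 else 0) * (2 ^ ℓ - 1) + Ml) = A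
          at e1 ⊢
        generalize ((act r ∩ D).card : ℤ) - 8 * R * ((if cr then 1 else 0) * (2 ^ ℓ - 1) + Mr) = B
          at e2 ⊢
        generalize (8 * R * (if c then 1 else 0) : ℤ) = q at q1 ⊢
        generalize (8 * R * (if cl then 1 else 0) : ℤ) = ql at q2 ⊢
        generalize (8 * R * (if cr then 1 else 0) : ℤ) = qr at q3 ⊢
        constructor
        · linarith [e1.1, e2.1, q1.1, q2.2, q3.2]
        · linarith [e1.2, e2.2, q1.2, q2.1, q3.1]
      · -- no rare event
        have hcol : err c D (w₀ x a) ≤ t := hroot.resolve_left hC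
        unfold Cst at hC
        push Not at hC
        obtain ⟨⟨n1, n2, n3⟩, n4, n5⟩ := hC
        have d0' : ¬ Dirty t D (w₀' x a (len R ℓ)) := fun hd => n4 (Or.inr hd) hA0
        have d1 : ¬ Dirty t D (w₁ R x a (len R ℓ)) := fun hd => n5 (Or.inl hd) hA1
        have d1' : ¬ Dirty t D (w₁' R x a (len R ℓ)) := fun hd => n5 (Or.inr hd) hA1
        have c0' := same_col h3 h4 h3' h4' hA0 (by omega) hcol d0'
        have c1 : err c D (w₁ R x a (len R ℓ)) ≤ t := by
          by_contra hcon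
          have h9 := err_cases d1 hcon
          apply n2
          refine ⟨c, (err_mono ?_).trans c0', (err_mono ?_).trans h9⟩
          · intro i hi
            rw [mem_Ico] at hi
            simp only [w₀', mem_Ico]
            omega
          · intro i hi
            rw [mem_Ico] at hi
            simp only [w₁, mem_Ico]
            omega
        have c1' := same_col h5 h6 h5' h6' hA1 (by omega) c1 d1'
        have hcl := child_col (t := t) (s := s) (c := c) l h7 hAl n1 ((err_mono (by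
          intro i hi
          rw [mem_Ico] at hi
          simp only [w₀, mem_Ico]
          omega)).trans hcol)
        have hcr := child_col (t := t) (s := s) (c := c) r h8 hAr n3 ((err_mono (by
          intro i hi
          rw [mem_Ico] at hi
          simp only [w₁, mem_Ico]
          omega)).trans c1)
        obtain ⟨Ml, r1, e1⟩ := ih _ l h7 hAl c hcl
        obtain ⟨Mr, r2, e2⟩ := ih _ r h8 hAr c hcr
        have hC' : ¬ Cst t s R x a (len R ℓ) Y₀ Y₀' Y₁ Y₁' D := by
          unfold Cst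
          push Not
          exact ⟨⟨n1, n2, n3⟩, n4, n5⟩
        have hcost : cost t s R D x (Lay.node a Y₀ Y₀' Y₁ Y₁' l r) =
            cost t s R D (x + 2 * a) l + cost t s R D (x + 2 * a + (len R ℓ + 8 * R)) r := by
          simp only [cost]
          rw [if_neg hC']; ring
        rw [hcost]
        refine ⟨Ml + Mr, r1.sum r2, ?_⟩
        rw [hparts]
        obtain ⟨o, ho⟩ : ∃ o, o = (Y₀ ∩ D).card + (Y₀' ∩ D).card +
          ((Y₁ ∩ D).card + (Y₁' ∩ D).card) := ⟨_, rfl⟩
        have v0 := (err_mono (c := c) (D := D) h3).trans hcol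
        have v0' := (err_mono (c := c) (D := D) h4).trans c0'
        have v1 := (err_mono (c := c) (D := D) h5).trans c1
        have v1' := (err_mono (c := c) (D := D) h6).trans c1'
        have hown : (o : ℤ) ≤ 8 * R * (if c then 1 else 0) + 4 * t ∧
            8 * R * (if c then 1 else 0) ≤ (o : ℤ) + 4 * t := by
          cases c
          · simp only [err, Bool.false_eq_true, if_false] at v0 v0' v1 v1' ⊢
            have : o ≤ 4 * t := by omega
            constructor <;> omega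
          · simp only [err, if_true] at v0 v0' v1 v1' ⊢
            have g1 : o ≤ 8 * R := by omega
            have g2 : 8 * R ≤ o + 4 * t := by omega
            constructor <;> omega
        rw [← ho, hpow]
        push_cast
        rw [abs_le] at e1 e2 ⊢
        have key2 : (o : ℤ) + (((act l ∩ D).card : ℤ) + (act r ∩ D).card) -
            8 * R * ((if c then 1 else 0) * (2 * 2 ^ ℓ - 1) + (Ml + Mr)) =
            (((act l ∩ D).card : ℤ) - 8 * R * ((if c then 1 else 0) * (2 ^ ℓ - 1) + Ml)) +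
            (((act r ∩ D).card : ℤ) - 8 * R * ((if c then 1 else 0) * (2 ^ ℓ - 1) + Mr)) +
            (o - 8 * R * (if c then 1 else 0)) := by ring
        rw [key2]
        have ht0 : (0 : ℤ) ≤ t := Int.natCast_nonneg _
        obtain ⟨hown1, hown2⟩ := hown
        generalize ((act l ∩ D).card : ℤ) - 8 * R * ((if c then 1 else 0) * (2 ^ ℓ - 1) + Ml) = A
          at e1 ⊢
        generalize ((act r ∩ D).card : ℤ) - 8 * R * ((if c then 1 else 0) * (2 ^ ℓ - 1) + Mr) = B
          at e2 ⊢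
        generalize (8 * R * (if c then 1 else 0) : ℤ) = q at hown1 hown2 ⊢
        constructor
        · linarith [e1.1, e2.1]
        · linarith [e1.2, e2.2]

end Pool.Agent.TH708.Tre
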