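import Pool.Agent.TH708.Tre.Defs
import Pool.Agent.TH708.Dec.Match

/-!
# Wrapping noncrossing matchings into bundles, and concatenation
-/

set_option autoImplicit false

namespace Pool.Agent.TH708.Tre

open Finset Pool.Agent.TH708.Dec

theorem wrapA (x y y' z : ℕ) (hyy : y ≤ y') (W O : Finset ℕ) (π : ℕ → ℕ) (hN : NonCross W O π) (hO : O ⊆ W)
    (hlt : ∀ i ∈ O, i < π i) (hW : ∀ i ∈ W, y ≤ i ∧ i < y') :
    ∀ (k : ℕ) (Y Y' : Finset ℕ), Y.card = k → Y'.card = k → (∀ i ∈ Y, x ≤ i ∧ i < y) → (∀ i ∈ Y', y' ≤ i ∧ i < z) →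
      ∃ π' : ℕ → ℕ, NonCross (W ∪ Y ∪ Y') (O ∪ Y) π' ∧ (∀ i ∈ O ∪ Y, i < π' i) ∧
        (∀ i ∈ W, π' i = π i) ∧ ∀ i ∈ Y, π' i ∈ Y' := by
  intro k
  induction k with
  | zero =>
    intro Y Y' h1 h2 _ _
    rw [card_eq_zero] at h1 h2
    subst h1; subst h2
    refine ⟨π, ?_, ?_, fun _ _ => rfl, fun i hi => absurd hi (notMem_empty i)⟩
    · simpa using hN
    · simpa using hlt
  | succ k ih =>
    intro Y Y' h1 h2 hY hY'
    have hYne : Y.Nonempty := card_pos.1 (by omega)
    have hYne' : Y'.Nonempty := card_pos.1 (by omega)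
    set p := Y.min' hYne with hp
    set q := Y'.max' hYne' with hq
    have hpY : p ∈ Y := min'_mem _ _
    have hqY : q ∈ Y' := max'_mem _ _
    have hpmin : ∀ i ∈ Y, p ≤ i := fun i hi => min'_le _ _ hi
    have hqmax : ∀ i ∈ Y', i ≤ q := fun i hi => le_max' _ _ hi
    have hpb := hY p hpY
    have hqb := hY' q hqY
    obtain ⟨π₁, hN₁, hlt₁, hW₁, hYY₁⟩ := ih (Y.erase p) (Y'.erase q)
      (by rw [card_erase_of_mem hpY]; omega) (by rw [card_erase_of_mem hqY]; omega)
      (fun i hi => hY i (mem_of_mem_erase hi)) (fun i hi => hY' i (mem_of_mem_erase hi))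
    set V := W ∪ Y.erase p ∪ Y'.erase q with hV
    have hVb : ∀ i ∈ V, p < i ∧ i < q := by
      intro i hi
      rw [hV, mem_union, mem_union] at hi
      rcases hi with (hi | hi) | hi
      · have := hW i hi; omega
      · have h3 := hpmin i (mem_of_mem_erase hi)
        have h4 := ne_of_mem_erase hi
        have h5 := hY i (mem_of_mem_erase hi)
        omega
      · have h3 := hqmax i (mem_of_mem_erase hi)
        have h4 := ne_of_mem_erase hi
        have h5 := hY' i (mem_of_mem_erase hi)
        omega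
    have hcase : ∀ i ∈ W ∪ Y ∪ Y', i = p ∨ i = q ∨ i ∈ V := by
      intro i hi
      by_cases h3 : i = p
      · exact Or.inl h3
      by_cases h4 : i = q
      · exact Or.inr (Or.inl h4)
      right; right
      rw [hV, mem_union, mem_union, mem_erase, mem_erase]
      rw [mem_union, mem_union] at hi
      tauto
    have hVsub : ∀ i ∈ V, i ∈ W ∪ Y ∪ Y' := by
      intro i hi
      rw [hV, mem_union, mem_union, mem_erase, mem_erase] at hi
      rw [mem_union, mem_union]
      tauto
    have hpq : p < q := by omega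
    set π' : ℕ → ℕ := fun i => if i = p then q else if i = q then p else π₁ i with hπ'
    have ep : π' p = q := by simp [hπ']
    have eq' : π' q = p := by simp [hπ', hpq.ne']
    have eV : ∀ i ∈ V, π' i = π₁ i := by
      intro i hi
      have := hVb i hi
      have a1 : i ≠ p := by omega
      have a2 : i ≠ q := by omega
      simp [hπ', a1, a2]
    have hpW : p ∈ W ∪ Y ∪ Y' := by rw [mem_union, mem_union]; exact Or.inl (Or.inr hpY)
    have hqW : q ∈ W ∪ Y ∪ Y' := by rw [mem_union]; exact Or.inr hqY
    have hqOY : q ∉ O ∪ Y := by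
      rw [mem_union, not_or]
      constructor
      · intro h; have := hW q (hO h); omega
      · intro h; have := hY q h; omega
    have hpOY : p ∈ O ∪ Y := mem_union_right _ hpY
    have hOY : ∀ i ∈ V, (i ∈ O ∪ Y ↔ i ∈ O ∪ Y.erase p) := by
      intro i hi
      have := hVb i hi
      have a1 : i ≠ p := by omega
      rw [mem_union, mem_union, mem_erase]
      tauto
    refine ⟨π', ⟨?_, ?_, ?_, ?_⟩, ?_, ?_, ?_⟩
    · intro i hi
      rcases hcase i hi with rfl | rfl | h
      · rw [ep]; exact hqW
      · rw [eq']; exact hpW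
      · rw [eV i h]; exact hVsub _ (hN₁.mem i h)
    · intro i hi
      rcases hcase i hi with h | h | h
      · rw [h, ep, eq']
      · rw [h, eq', ep]
      · rw [eV i h, eV _ (hN₁.mem i h)]; exact hN₁.inv i h
    · intro i hi
      rcases hcase i hi with h | h | h
      · rw [h, ep]; exact ⟨fun _ => hqOY, fun _ => hpOY⟩
      · rw [h, eq']
        constructor
        · intro h3; exact absurd h3 hqOY
        · intro h3; exact absurd hpOY h3
      · rw [eV i h, hOY i h, hOY _ (hN₁.mem i h)]
        exact hN₁.swap i h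
    · intro i hi hil l hl h3 h4
      rcases hcase i hi with h | h | h
      · rw [h, ep] at h4
        rw [h] at h3
        rw [h, ep]
        rcases hcase l hl with h5 | h5 | h5
        · omega
        · omega
        · rw [eV l h5]; exact hVb _ (hN₁.mem l h5)
      · rw [h, eq'] at hil; omega
      · have h6 := hVb i h
        have h7 := hVb _ (hN₁.mem i h)
        rw [eV i h] at hil h4 ⊢
        rcases hcase l hl with h5 | h5 | h5
        · omega
        · omega
        · rw [eV l h5]
          exact hN₁.nc i h hil l h5 h3 h4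
    · intro i hi
      rw [mem_union] at hi
      by_cases h : i = p
      · rw [h, ep]; exact hpq
      · have hiV : i ∈ V := by
          rw [hV, mem_union, mem_union, mem_erase]
          rcases hi with h3 | h3
          · exact Or.inl (Or.inl (hO h3))
          · exact Or.inl (Or.inr ⟨h, h3⟩)
        rw [eV i hiV]
        apply hlt₁
        rw [mem_union, mem_erase]
        tauto
    · intro i hi
      have hiV : i ∈ V := by rw [hV, mem_union, mem_union]; exact Or.inl (Or.inl hi)
      rw [eV i hiV]; exact hW₁ i hi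
    · intro i hi
      by_cases h : i = p
      · rw [h, ep]; exact hqY
      · have hiE : i ∈ Y.erase p := mem_erase.2 ⟨h, hi⟩
        have hiV : i ∈ V := by rw [hV, mem_union, mem_union]; exact Or.inl (Or.inr hiE)
        rw [eV i hiV]
        exact mem_of_mem_erase (hYY₁ i hiE)

theorem wrap : T_wrap := by
  refine ⟨?_, ?_⟩
  · intro x y y' z hyy W O π Y Y' hN hO hlt hY hW hY' hc
    exact wrapA x y y' z hyy W O π hN hO hlt hW Y'.card Y Y' hc rfl hY hY'
  · intro x y z W₁ O₁ W₂ O₂ π₁ π₂ h₁ h₂ hO₁ hO₂ l₁ l₂ b₁ b₂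
    set π : ℕ → ℕ := fun i => if i < y then π₁ i else π₂ i with hπ
    have e₁ : ∀ i ∈ W₁, π i = π₁ i := by
      intro i hi
      have := b₁ i hi
      simp only [hπ]
      rw [if_pos (by omega)]
    have e₂ : ∀ i ∈ W₂, π i = π₂ i := by
      intro i hi
      have := b₂ i hi
      simp only [hπ]
      rw [if_neg (by omega)]
    have n₁ : ∀ i ∈ W₁, (i ∈ O₁ ∪ O₂ ↔ i ∈ O₁) := by
      intro i hi
      rw [mem_union]
      constructor
      · rintro (h | h)
        · exact h
        · have := b₂ i (hO₂ h); have := b₁ i hi; omega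
      · exact Or.inl
    have n₂ : ∀ i ∈ W₂, (i ∈ O₁ ∪ O₂ ↔ i ∈ O₂) := by
      intro i hi
      rw [mem_union]
      constructor
      · rintro (h | h)
        · have := b₁ i (hO₁ h); have := b₂ i hi; omega
        · exact h
      · exact Or.inr
    refine ⟨π, ⟨?_, ?_, ?_, ?_⟩, ?_, e₁, e₂⟩
    · intro i hi
      rw [mem_union] at hi ⊢
      rcases hi with h | h
      · rw [e₁ i h]; exact Or.inl (h₁.mem i h)
      · rw [e₂ i h]; exact Or.inr (h₂.mem i h)
    · intro i hi
      rw [mem_union] at hi
      rcases hi with h | h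
      · rw [e₁ i h, e₁ _ (h₁.mem i h)]; exact h₁.inv i h
      · rw [e₂ i h, e₂ _ (h₂.mem i h)]; exact h₂.inv i h
    · intro i hi
      rw [mem_union] at hi
      rcases hi with h | h
      · rw [e₁ i h, n₁ i h, n₁ _ (h₁.mem i h)]; exact h₁.swap i h
      · rw [e₂ i h, n₂ i h, n₂ _ (h₂.mem i h)]; exact h₂.swap i h
    · intro i hi hil l hl h3 h4
      rw [mem_union] at hi hl
      rcases hi with h | h
      · rw [e₁ i h] at hil h4 ⊢
        rcases hl with h5 | h5
        · rw [e₁ l h5]; exact h₁.nc i h hil l h5 h3 h4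
        · have := b₁ _ (h₁.mem i h); have := b₂ l h5; omega
      · rw [e₂ i h] at hil h4 ⊢
        rcases hl with h5 | h5
        · have := b₁ l h5; have := b₂ i h; omega
        · rw [e₂ l h5]; exact h₂.nc i h hil l h5 h3 h4
    · intro i hi
      rw [mem_union] at hi
      rcases hi with h | h
      · rw [e₁ i (hO₁ h)]; exact l₁ i h
      · rw [e₂ i (hO₂ h)]; exact l₂ i h

end Pool.Agent.TH708.Tre
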