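import Pool.Agent.TH708.Tre.Comb
import Pool.Agent.TH708.Tre.Wrap

/-!
# The noncrossing matching of a layout
-/

set_option autoImplicit false
set_option linter.unusedSectionVars false

namespace Pool.Agent.TH708.Tre

open Finset Pool.Agent.TH708.Dec

/-- The opening positions. -/
def opn : {ℓ : ℕ} → Lay ℓ → Finset ℕ
  | _, .leaf => ∅
  | _, .node _ Y₀ _ Y₁ _ l r => (opn l ∪ Y₀) ∪ (opn r ∪ Y₁)

/-- The matching joins the two sides of every bundle. -/
def Mt (π : ℕ → ℕ) : {ℓ : ℕ} → Lay ℓ → Prop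
  | _, .leaf => True
  | _, .node _ Y₀ Y₀' Y₁ Y₁' l r => (∀ i ∈ Y₀, π i ∈ Y₀') ∧ (∀ i ∈ Y₁, π i ∈ Y₁') ∧ Mt π l ∧ Mt π r

theorem opn_sub : ∀ {ℓ : ℕ} (T : Lay ℓ), opn T ⊆ act T := by
  intro ℓ
  induction ℓ with
  | zero => intro T; cases T; simp [opn]
  | succ ℓ ih =>
    intro T
    cases T with
    | node a Y₀ Y₀' Y₁ Y₁' l r =>
      intro i hi
      have h1 := @ih l i
      have h2 := @ih r i
      simp only [opn, mem_union] at hi
      simp only [act, mem_union]
      tauto

theorem Mt.congr {π π' : ℕ → ℕ} : ∀ {ℓ : ℕ} (T : Lay ℓ), (∀ i ∈ act T, π' i = π i) → Mt π T →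
    Mt π' T := by
  intro ℓ
  induction ℓ with
  | zero => intro T _ _; cases T; trivial
  | succ ℓ ih =>
    intro T h hm
    cases T with
    | node a Y₀ Y₀' Y₁ Y₁' l r =>
      obtain ⟨h1, h2, h3, h4⟩ := hm
      have hact : ∀ i, i ∈ Y₀ ∨ i ∈ Y₁ ∨ i ∈ act l ∨ i ∈ act r →
          π' i = π i := by
        intro i hi
        apply h
        simp only [act, mem_union]
        tauto
      refine ⟨fun i hi => ?_, fun i hi => ?_, ih l (fun i hi => hact i (by tauto)) h3,
        ih r (fun i hi => hact i (by tauto)) h4⟩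
      · rw [hact i (by tauto)]; exact h1 i hi
      · rw [hact i (by tauto)]; exact h2 i hi

theorem lay_match {R : ℕ} : ∀ {ℓ : ℕ} (x : ℕ) (T : Lay ℓ), Valid R x T →
    ∃ π : ℕ → ℕ, NonCross (act T) (opn T) π ∧ (∀ i ∈ opn T, i < π i) ∧ Mt π T := by
  intro ℓ
  induction ℓ with
  | zero =>
    intro x T _
    cases T
    exact ⟨id, ⟨by simp [act], by simp [act], by simp [act], by simp [act]⟩, by simp [opn], trivial⟩
  | succ ℓ ih =>
    intro x T hT
    cases T with
    | node a Y₀ Y₀' Y₁ Y₁' l r =>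
      obtain ⟨⟨h1, h2⟩, ⟨h3, h3'⟩, ⟨h4, h4'⟩, ⟨h5, h5'⟩, ⟨h6, h6'⟩, h7, h8⟩ := hT
      obtain ⟨πl, l1, l2, l3⟩ := ih _ l h7
      obtain ⟨πr, r1, r2, r3⟩ := ih _ r h8
      have bl := act_sub (x + 2 * a) l h7
      have br := act_sub (x + 2 * a + (len R ℓ + 8 * R)) r h8
      have b0 : ∀ i ∈ Y₀, x ≤ i ∧ i < x + 2 * a := fun i hi => by
        have := h3 hi; simpa only [w₀, mem_Ico] using this
      have b0' : ∀ i ∈ Y₀', x + 2 * a + len R ℓ ≤ i ∧ i < x + 4 * a + len R ℓ := fun i hi => by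
        have := h4 hi; simpa only [w₀', mem_Ico] using this
      have b1 : ∀ i ∈ Y₁, x + 4 * a + len R ℓ ≤ i ∧ i < x + 2 * a + (len R ℓ + 8 * R) :=
        fun i hi => by have := h5 hi; simpa only [w₁, mem_Ico] using this
      have b1' : ∀ i ∈ Y₁', x + 2 * a + (2 * len R ℓ + 8 * R) ≤ i ∧
          i < x + (16 * R + 2 * len R ℓ) :=
        fun i hi => by have := h6 hi; simpa only [w₁', mem_Ico] using this
      obtain ⟨π₁, p1, p2, p3, p4⟩ := wrap.1 x (x + 2 * a) (x + 2 * a + len R ℓ)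
        (x + 4 * a + len R ℓ) (by omega) (act l) (opn l) πl Y₀ Y₀' l1 (opn_sub l) l2 b0
        (fun i hi => bl i hi) b0' (by rw [h3', h4'])
      obtain ⟨π₂, q1, q2, q3, q4⟩ := wrap.1 (x + 4 * a + len R ℓ)
        (x + 2 * a + (len R ℓ + 8 * R)) (x + 2 * a + (2 * len R ℓ + 8 * R))
        (x + (16 * R + 2 * len R ℓ)) (by omega) (act r) (opn r) πr Y₁ Y₁' r1 (opn_sub r) r2 b1
        (fun i hi => by have := br i hi; omega) b1' (by rw [h5', h6'])
      obtain ⟨π, s1, s2, s3, s4⟩ := wrap.2 x (x + 4 * a + len R ℓ) (x + (16 * R + 2 * len R ℓ))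
        _ _ _ _ π₁ π₂ p1 q1 (union_subset_union ((opn_sub l).trans subset_union_left) Subset.rfl
          |>.trans (by
            intro i hi
            simp only [mem_union] at hi ⊢
            tauto)) (by
            intro i hi
            have := @opn_sub _ r i
            simp only [mem_union] at hi ⊢
            tauto) p2 q2 (by
            intro i hi
            simp only [mem_union] at hi
            rcases hi with (hi | hi) | hi
            · have := bl i hi; omega
            · have := b0 i hi; omega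
            · have := b0' i hi; omega) (by
            intro i hi
            simp only [mem_union] at hi
            rcases hi with (hi | hi) | hi
            · have := br i hi; omega
            · have := b1 i hi; omega
            · have := b1' i hi; omega)
      have hact : (act l ∪ Y₀ ∪ Y₀') ∪ (act r ∪ Y₁ ∪ Y₁') =
          act (Lay.node a Y₀ Y₀' Y₁ Y₁' l r) := by
        ext i
        simp only [act, mem_union]
        tauto
      rw [hact] at s1
      refine ⟨π, s1, s2, ?_, ?_, ?_, ?_⟩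
      · intro i hi
        rw [s3 i (by simp only [mem_union]; tauto)]
        exact p4 i hi
      · intro i hi
        rw [s4 i (by simp only [mem_union]; tauto)]
        exact q4 i hi
      · refine Mt.congr (π := πl) l (fun i hi => ?_) l3
        rw [s3 i (by simp only [mem_union]; tauto), p3 i hi]
      · refine Mt.congr (π := πr) r (fun i hi => ?_) r3
        rw [s4 i (by simp only [mem_union]; tauto), q3 i hi]

theorem close_of {π : ℕ → ℕ} {O Y Y' D : Finset ℕ} {s : ℕ} (hinj : Set.InjOn π O) (hY : Y ⊆ O)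
    (hm : ∀ i ∈ Y, π i ∈ Y') (hc : Y.card = Y'.card)
    (hs : (O.filter fun i => ¬ (i ∈ D ↔ π i ∈ D)).card ≤ s) : Close s D Y Y' := by
  classical
  have himg : Y.image π = Y' := by
    apply eq_of_subset_of_card_le
    · intro j hj
      obtain ⟨i, hi, rfl⟩ := mem_image.1 hj
      exact hm i hi
    · rw [card_image_of_injOn (hinj.mono (by exact_mod_cast hY)), hc]
  have h1 : (Y ∩ D).card ≤ (Y' ∩ D).card + (O.filter fun i => ¬ (i ∈ D ↔ π i ∈ D)).card := by
    have hsub : Y ∩ D ⊆ (Y ∩ D).filter (fun i => π i ∈ D) ∪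
        (O.filter fun i => ¬ (i ∈ D ↔ π i ∈ D)) := by
      intro i hi
      rw [mem_inter] at hi
      rw [mem_union, mem_filter, mem_inter, mem_filter]
      by_cases h : π i ∈ D
      · exact Or.inl ⟨hi, h⟩
      · exact Or.inr ⟨hY hi.1, fun h' => h (h'.1 hi.2)⟩
    refine (card_le_card hsub).trans ((card_union_le _ _).trans (Nat.add_le_add_right ?_ _))
    apply card_le_card_of_injOn π
    · intro i hi
      rw [mem_coe, mem_filter, mem_inter] at hi
      rw [mem_coe, mem_inter]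
      exact ⟨hm i hi.1.1, hi.2⟩
    · intro i hi j hj hij
      rw [mem_coe, mem_filter, mem_inter] at hi hj
      exact hinj (hY hi.1.1) (hY hj.1.1) hij
  have h2 : (Y' ∩ D).card ≤ (Y ∩ D).card + (O.filter fun i => ¬ (i ∈ D ↔ π i ∈ D)).card := by
    have hsub : Y' ∩ D ⊆ ((Y ∩ D) ∪ (O.filter fun i => ¬ (i ∈ D ↔ π i ∈ D))).image π := by
      intro j hj
      rw [mem_inter, ← himg, mem_image] at hj
      obtain ⟨⟨i, hi, rfl⟩, hj⟩ := hj
      rw [mem_image]
      refine ⟨i, ?_, rfl⟩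
      rw [mem_union, mem_inter, mem_filter]
      by_cases h : i ∈ D
      · exact Or.inl ⟨hi, h⟩
      · exact Or.inr ⟨hY hi, fun h' => h (h'.2 hj)⟩
    exact (card_le_card hsub).trans (card_image_le.trans (card_union_le _ _))
  exact ⟨by omega, by omega⟩

theorem all_close {R : ℕ} {π : ℕ → ℕ} {O D : Finset ℕ} {s : ℕ} (hinj : Set.InjOn π O)
    (hs : (O.filter fun i => ¬ (i ∈ D ↔ π i ∈ D)).card ≤ s) : ∀ {ℓ : ℕ} (x : ℕ) (T : Lay ℓ),
      Valid R x T → opn T ⊆ O → Mt π T → AllClose s D T := by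
  intro ℓ
  induction ℓ with
  | zero => intro x T _ _ _; cases T; trivial
  | succ ℓ ih =>
    intro x T hT hO hm
    cases T with
    | node a Y₀ Y₀' Y₁ Y₁' l r =>
      obtain ⟨_, ⟨_, h3⟩, ⟨_, h4⟩, ⟨_, h5⟩, ⟨_, h6⟩, h7, h8⟩ := hT
      obtain ⟨m1, m2, m3, m4⟩ := hm
      have hsub : ∀ i, i ∈ Y₀ ∨ i ∈ Y₁ ∨ i ∈ opn l ∨ i ∈ opn r → i ∈ O := by
        intro i hi
        apply hO
        simp only [opn, mem_union]
        tauto
      refine ⟨close_of hinj (fun i hi => hsub i (by tauto)) m1 (by rw [h3, h4]) hs,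
        close_of hinj (fun i hi => hsub i (by tauto)) m2 (by rw [h5, h6]) hs,
        ih _ l h7 (fun i hi => hsub i (by tauto)) m3, ih _ r h8 (fun i hi => hsub i (by tauto)) m4⟩

/-- Transport of a matching along an increasing map. -/
theorem nonCross_map {W O : Finset ℕ} {π : ℕ → ℕ} (h : NonCross W O π) (hO : O ⊆ W) {φ ψ : ℕ → ℕ}
    (hφ : ∀ i ∈ W, ∀ j ∈ W, i < j → φ i < φ j) (hψ : ∀ i ∈ W, ψ (φ i) = i) :
    NonCross (W.image φ) (O.image φ) (fun j => φ (π (ψ j))) := by
  classical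
  have hiff : ∀ i ∈ W, ∀ j ∈ W, (φ i < φ j ↔ i < j) := by
    intro i hi j hj
    refine ⟨fun hlt => ?_, hφ i hi j hj⟩
    by_contra hc
    rcases Nat.lt_or_ge j i with h1 | h1
    · have := hφ j hj i hi h1; omega
    · have : i = j := by omega
      subst this
      omega
  have hmem : ∀ i ∈ W, (φ i ∈ O.image φ ↔ i ∈ O) := by
    intro i hi
    rw [mem_image]
    constructor
    · rintro ⟨j, hj, he⟩
      have := congrArg ψ he
      rw [hψ j (hO hj), hψ i hi] at this
      rw [← this]; exact hj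
    · intro hj; exact ⟨i, hj, rfl⟩
  constructor
  · intro j hj
    obtain ⟨i, hi, rfl⟩ := mem_image.1 hj
    simp only [hψ i hi]
    exact mem_image_of_mem _ (h.mem i hi)
  · intro j hj
    obtain ⟨i, hi, rfl⟩ := mem_image.1 hj
    simp only [hψ i hi, hψ _ (h.mem i hi), h.inv i hi]
  · intro j hj
    obtain ⟨i, hi, rfl⟩ := mem_image.1 hj
    simp only [hψ i hi]
    rw [hmem i hi, hmem _ (h.mem i hi)]
    exact h.swap i hi
  · intro j hj hlt k hk h1 h2
    obtain ⟨i, hi, rfl⟩ := mem_image.1 hj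
    obtain ⟨l, hl, rfl⟩ := mem_image.1 hk
    simp only [hψ i hi, hψ l hl] at *
    rw [hiff i hi _ (h.mem i hi)] at hlt
    rw [hiff i hi l hl] at h1
    rw [hiff l hl _ (h.mem i hi)] at h2
    rw [hiff i hi _ (h.mem l hl), hiff _ (h.mem l hl) _ (h.mem i hi)]
    exact h.nc i hi hlt l hl h1 h2

theorem nonCross_half {W O : Finset ℕ} {π : ℕ → ℕ} (h : NonCross W O π) (hO : O ⊆ W) :
    W.card = 2 * O.card := by
  classical
  have h1 : O.card ≤ (W \ O).card := by
    apply card_le_card_of_injOn π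
    · intro i hi
      rw [mem_coe] at hi
      rw [mem_coe, mem_sdiff]
      exact ⟨h.mem i (hO hi), (h.swap i (hO hi)).1 hi⟩
    · intro i hi j hj hij
      rw [← h.inv i (hO hi), hij, h.inv j (hO hj)]
  have h2 : (W \ O).card ≤ O.card := by
    apply card_le_card_of_injOn π
    · intro i hi
      rw [mem_coe, mem_sdiff] at hi
      rw [mem_coe]
      by_contra hc
      exact hi.2 ((h.swap i hi.1).2 hc)
    · intro i hi j hj hij
      rw [mem_coe, mem_sdiff] at hi hj
      rw [← h.inv i hi.1, hij, h.inv j hj.1]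
  have h3 := card_sdiff_add_card_eq_card hO
  omega

end Pool.Agent.TH708.Tre
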