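import Pool.Agent.TH708.Tre.Cut
import Pool.Agent.TH708.Tre.Mat
import Pool.Agent.TH384.Tre.Sample

/-!
# The lower bound
-/

set_option autoImplicit false
set_option linter.unusedSectionVars false

namespace Pool.Agent.TH708.Tre

open Finset Pool.Agent.TH708.Dec Pool.Agent.TH708.Nar

/-- The word of a noncrossing matching on the positions `φ i`. -/
theorem word_sit {n : ℕ} (C : Ckt (Fin n × Fin 3))
    (hC : ∀ z, Dyck (untyped z) → (C.eval z = true ↔ Dyck z)) {L : ℕ} (φ : ℕ → Fin n)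
    (hφ : ∀ i < L, ∀ j < L, i < j → φ i < φ j) (hd : ∀ i < L, C.deg (φ i, 2) ≤ 1)
    {W O : Finset ℕ} {π : ℕ → ℕ} (hW : ∀ i ∈ W, i < L) (hO : O ⊆ W) (h : NonCross W O π) :
    ∃ (ρ : Fin n × Fin 3 → Bool) (σ : ↥W → ↥W), (∀ i, (σ i).1 = π i.1) ∧
      Sit C (fun i : ↥W => (φ i.1, (2 : Fin 3))) ρ (univ.filter fun i : ↥W => i.1 ∈ O) σ := by
  classical
  have hφinj : ∀ i < L, ∀ j < L, φ i = φ j → i = j := by
    intro i hi j hj he
    rcases Nat.lt_trichotomy i j with h1 | h1 | h1
    · have := hφ i hi j hj h1; rw [he] at this; exact absurd this (lt_irrefl _)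
    · exact h1
    · have := hφ j hj i hi h1; rw [he] at this; exact absurd this (lt_irrefl _)
  -- the inverse map
  let ψ : ℕ → ℕ := fun k => if hk : ∃ i ∈ W, (φ i : ℕ) = k then hk.choose else 0
  have hψ : ∀ i ∈ W, ψ (φ i) = i := by
    intro i hi
    have hex : ∃ j ∈ W, (φ j : ℕ) = φ i := ⟨i, hi, rfl⟩
    have h1 : ψ (φ i) = hex.choose := by simp only [ψ]; rw [dif_pos hex]
    rw [h1]
    have h2 := hex.choose_spec
    exact hφinj _ (hW _ h2.1) _ (hW i hi) (Fin.ext h2.2)
  have hmap := nonCross_map (φ := fun i => (φ i : ℕ)) (ψ := ψ) h hO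
    (fun i hi j hj hij => hφ i (hW i hi) j (hW j hj) hij) hψ
  set W' := W.image (fun i => (φ i : ℕ)) with hW'
  set π' : ℕ → ℕ := fun j => (φ (π (ψ j)) : ℕ) with hπ'
  let WF : Finset (Fin n) := W.image φ
  have hWF : WF.image Fin.val = W' := by
    rw [hW']; simp only [WF, image_image]; rfl
  let e : ↥W → Fin n × Fin 3 := fun i => (φ i.1, 2)
  have he : Function.Injective e := by
    intro a b hab
    have := congrArg Prod.fst hab
    exact Subtype.ext (hφinj _ (hW _ a.2) _ (hW _ b.2) this)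
  let σ : ↥W → ↥W := fun i => ⟨π i.1, h.mem i.1 i.2⟩
  have hhalf := nonCross_half h hO
  have hYc : (univ.filter fun i : ↥W => i.1 ∈ O).card = O.card := by
    rw [← card_map (Function.Embedding.subtype (· ∈ W))]
    congr 1
    ext i
    simp only [mem_map, mem_filter, mem_univ, true_and, Function.Embedding.coe_subtype]
    constructor
    · rintro ⟨a, ha, rfl⟩; exact ha
    · intro hi; exact ⟨⟨i, hO hi⟩, hi, rfl⟩
  refine ⟨instr WF π', σ, fun i => rfl, he, fun i => hd i.1 (hW i.1 i.2), ?_, ?_, ?_, fun x => ?_⟩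
  · rw [Fintype.card_coe, hYc, hhalf]
  · intro y hy
    rw [mem_filter] at hy ⊢
    intro hc
    exact (h.swap y.1 y.2).1 hy.2 hc.2
  · intro a _ b _ hab
    have h1 : π a.1 = π b.1 := congrArg Subtype.val hab
    apply Subtype.ext
    rw [← h.inv a.1 a.2, h1, h.inv b.1 b.2]
  · set z := merge e (instr WF π') x with hz
    have hz0 : ∀ i, z (i, 0) = instr WF π' (i, 0) := fun i =>
      merge_off e _ _ _ fun j hj => by
        have := congrArg Prod.snd hj
        simp [e] at this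
    have hz1 : ∀ i, z (i, 1) = instr WF π' (i, 1) := fun i =>
      merge_off e _ _ _ fun j hj => by
        have := congrArg Prod.snd hj
        simp [e] at this
    have hz2 : ∀ i : ↥W, z (φ i.1, 2) = x i := fun i => merge_e e he _ _ i
    have hlt : ∀ i ∈ W', i < n := by
      intro i hi
      rw [hW', mem_image] at hi
      obtain ⟨a, _, rfl⟩ := hi
      exact (φ a).2
    have hword := isWord_of hz0 hz1
    rw [hWF] at hword
    have hval : ∀ i ∈ W, ∀ (hi : i ∈ W), (if h : (φ i : ℕ) < n then z (⟨(φ i : ℕ), h⟩, 2) else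
        false) = x ⟨i, hi⟩ := by
      intro i _ hi
      rw [dif_pos (φ i).2]
      exact hz2 ⟨i, hi⟩
    have hπφ : ∀ i ∈ W, π' (φ i) = φ (π i) := by
      intro i hi
      simp only [hπ', hψ i hi]
    have hbal : Dyck z ↔ ∀ y ∈ (univ.filter fun i : ↥W => i.1 ∈ O), x y = x (σ y) := by
      unfold Dyck
      rw [bal_iff hlt hmap hword]
      constructor
      · intro hx y _
        have h2 := hx (φ y.1) (by rw [hW']; exact mem_image_of_mem (fun i => (φ i : ℕ)) y.2)
        rw [hval y.1 y.2 y.2] at h2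
        have h3 := hπφ y.1 y.2
        have h4 := hval (π y.1) (h.mem _ y.2) (h.mem _ y.2)
        rw [h3] at h2
        rw [h2]
        exact h4
      · intro hx i hi
        rw [hW', mem_image] at hi
        obtain ⟨a, ha, rfl⟩ := hi
        have h3 := hπφ a ha
        rw [h3, hval a ha ha]
        refine Eq.trans ?_ (hval (π a) (h.mem _ ha) (h.mem _ ha)).symm
        by_cases hy : a ∈ O
        · exact hx ⟨a, ha⟩ (mem_filter.2 ⟨mem_univ _, hy⟩)
        · have hπa : π a ∈ O := by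
            by_contra hc
            exact hy ((h.swap a ha).2 hc)
          have h5 := hx ⟨π a, h.mem _ ha⟩ (mem_filter.2 ⟨mem_univ _, hπa⟩)
          rw [h5]
          congr 1
          exact Subtype.ext (h.inv a ha).symm
    show C.eval z = true ↔ _
    rw [← hbal]
    apply hC
    unfold Dyck
    have h0' : ∀ i, untyped z (i, 0) = instr WF π' (i, 0) := fun i => by
      show (if (0 : Fin 3) = 2 then false else z (i, 0)) = _
      rw [if_neg (by decide)]; exact hz0 i
    have h1' : ∀ i, untyped z (i, 1) = instr WF π' (i, 1) := fun i => by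
      show (if (1 : Fin 3) = 2 then false else z (i, 1)) = _
      rw [if_neg (by decide)]; exact hz1 i
    have hword' := isWord_of h0' h1'
    rw [hWF] at hword'
    rw [bal_iff hlt hmap hword']
    intro i _
    have hf : ∀ k : ℕ, (if h : k < n then untyped z (⟨k, h⟩, 2) else false) = false := by
      intro k
      by_cases h : k < n
      · rw [dif_pos h]; rfl
      · rw [dif_neg h]
    show (if h : i < n then untyped z (⟨i, h⟩, 2) else false) =
      (if h : π' i < n then untyped z (⟨π' i, h⟩, 2) else false)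
    rw [hf, hf]

theorem len_le (R ℓ : ℕ) : len R ℓ + 16 * R = 16 * R * 2 ^ ℓ := by
  induction ℓ with
  | zero => simp [len]
  | succ ℓ ih =>
    rw [len, pow_succ]
    have : 16 * R * (2 ^ ℓ * 2) = 2 * (16 * R * 2 ^ ℓ) := by ring
    rw [this, ← ih]
    ring

/-- Few subsets of bounded size. -/
theorem small_subsets {α : Type} [DecidableEq α] (H : Finset α) (k : ℕ) :
    (H.powerset.filter fun G => G.card ≤ k).card ≤ (H.card + 1) ^ k := by
  classical
  have h1 : (H.powerset.filter fun G => G.card ≤ k) ⊆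
      (range (k + 1)).biUnion fun j => H.powersetCard j := by
    intro G hG
    rw [mem_filter, mem_powerset] at hG
    rw [mem_biUnion]
    exact ⟨G.card, mem_range.2 (by omega), mem_powersetCard.2 ⟨hG.1, rfl⟩⟩
  refine (card_le_card h1).trans (card_biUnion_le.trans ?_)
  rw [add_pow]
  apply sum_le_sum
  intro j hj
  rw [mem_range] at hj
  rw [card_powersetCard, one_pow, mul_one]
  calc H.card.choose j ≤ H.card ^ j := Nat.choose_le_pow _ _
    _ = H.card ^ j * 1 := (mul_one _).symm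
    _ ≤ H.card ^ j * k.choose j := Nat.mul_le_mul_left _ (Nat.choose_pos (by omega))

/-- **The lower bound**, first form. -/
theorem lower_raw {n : ℕ} (C : Ckt (Fin n × Fin 3))
    (hC : ∀ z, Dyck (untyped z) → (C.eval z = true ↔ Dyck z)) (A : Finset (Fin n × Fin 3))
    (hA : ∀ v ∈ A, v.2 = 2) (hd : ∀ v ∈ A, C.deg v ≤ 1) (r m : ℕ) (hr : 5 ≤ r) (hm : 1 ≤ m)
    (hmr : m < 2 ^ (72 * r)) (hAr : 2 ^ (84 * r + 4) ≤ A.card) :
    2 ^ (29 * r ^ 2) < ((heavy A m C).card + 1) ^ (nest A m (C.tree C.out) + 1) := by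
  classical
  by_contra hcon
  push Not at hcon
  set L := len (2 ^ (72 * r)) (12 * r) with hL
  have hLA : L ≤ A.card := by
    have h1 := len_le (2 ^ (72 * r)) (12 * r)
    have h2 : 16 * 2 ^ (72 * r) * 2 ^ (12 * r) = 2 ^ (84 * r + 4) := by
      rw [show (16 : ℕ) = 2 ^ 4 by norm_num, ← pow_add, ← pow_add]; congr 1; ring
    omega
  -- the positions
  set T : Finset (Fin n) := A.image Prod.fst with hT
  have hTc : T.card = A.card := by
    apply card_image_of_injOn
    intro a ha b hb hab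
    exact Prod.ext hab ((hA a ha).trans (hA b hb).symm)
  have hTA : ∀ i ∈ T, (i, (2 : Fin 3)) ∈ A := by
    intro i hi
    rw [hT, mem_image] at hi
    obtain ⟨a, ha, rfl⟩ := hi
    have : a = (a.1, (2 : Fin 3)) := Prod.ext rfl (hA a ha)
    rw [← this]; exact ha
  have hpos : 0 < T.card := by
    rw [hTc]
    exact lt_of_lt_of_le (by positivity) hAr
  let φ : ℕ → Fin n := fun i => T.orderEmbOfFin rfl (if h : i < T.card then ⟨i, h⟩ else ⟨0, hpos⟩)
  have hφL : ∀ i (hi : i < L), φ i = T.orderEmbOfFin rfl ⟨i, by omega⟩ := by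
    intro i hi
    simp only [φ]
    rw [dif_pos (by omega : i < T.card)]
  have hφT : ∀ i, φ i ∈ T := fun i => orderEmbOfFin_mem T rfl _
  have hφ : ∀ i < L, ∀ j < L, i < j → φ i < φ j := by
    intro i hi j hj hij
    rw [hφL i hi, hφL j hj]
    exact (T.orderEmbOfFin rfl).strictMono hij
  -- the family
  set 𝒢 := (heavy A m C).powerset.filter fun G => G.card ≤ nest A m (C.tree C.out) + 1 with h𝒢
  have h𝒢c : 𝒢.card ≤ 2 ^ (29 * r ^ 2) := (small_subsets _ _).trans hcon
  let dset : Finset C.G → Finset ℕ := fun G => (range L).filter fun i =>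
    ∃ g ∈ G, 1 ≤ (C.tree g).deg (φ i, (2 : Fin 3))
  obtain ⟨T', hV, hbad⟩ := comb Pool.Agent.TH384.Tre.sample Pool.Agent.TH384.Tre.shift r
    (29 * r ^ 2) hr le_rfl (𝒢.image dset) (card_image_le.trans h𝒢c)
  obtain ⟨π, hπ, hπlt, hMt⟩ := lay_match 0 T' hV
  have hact : ∀ i ∈ act T', i < L := fun i hi => by
    have := act_sub 0 T' hV i hi
    omega
  obtain ⟨ρ, σ, hσ, S⟩ := word_sit C hC φ hφ (fun i _ => hd _ (hTA _ (hφT i))) hact (opn_sub T') hπ
  obtain ⟨G, g1, g2, g3, g4, g5⟩ := exists_good S (A := A) (m := m) (fun i => hTA _ (hφT _)) hm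
    ((act T').card / 3) (by rw [Fintype.card_coe]; exact Nat.div_le_self _ _) (29 * r ^ 2) h𝒢c
  -- the corresponding set of the family
  have hD : (act T' ∩ dset G).card = (G.biUnion (vs C fun i : ↥(act T') =>
      (φ i.1, (2 : Fin 3)))).card := by
    rw [← card_map (Function.Embedding.subtype (· ∈ act T'))]
    congr 1
    ext i
    simp only [mem_map, mem_inter, mem_biUnion, mem_vs, Function.Embedding.coe_subtype, dset,
      mem_filter, mem_range]
    constructor
    · rintro ⟨h1, _, g, hg, h2⟩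
      exact ⟨⟨i, h1⟩, ⟨g, hg, h2⟩, rfl⟩
    · rintro ⟨a, ⟨g, hg, h2⟩, rfl⟩
      exact ⟨a.2, hact _ a.2, g, hg, h2⟩
  have hmemD : ∀ i : ↥(act T'), i ∈ G.biUnion (vs C fun i : ↥(act T') => (φ i.1, (2 : Fin 3))) ↔
      i.1 ∈ dset G := by
    intro i
    simp only [mem_biUnion, mem_vs, dset, mem_filter, mem_range]
    constructor
    · rintro ⟨g, hg, h2⟩; exact ⟨hact _ i.2, g, hg, h2⟩
    · rintro ⟨_, g, hg, h2⟩; exact ⟨g, hg, h2⟩
  have hsp : ((opn T').filter fun i => ¬ (i ∈ dset G ↔ π i ∈ dset G)).card ≤ 29 * r ^ 2 := by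
    refine le_trans (le_of_eq ?_) g5
    rw [← card_map (Function.Embedding.subtype (· ∈ act T'))]
    congr 1
    ext i
    simp only [mem_map, Spl, mem_filter, mem_univ, true_and, Function.Embedding.coe_subtype]
    constructor
    · rintro ⟨h1, h2⟩
      refine ⟨⟨i, opn_sub T' h1⟩, ⟨h1, ?_⟩, rfl⟩
      rw [hmemD, hmemD, hσ]
      exact h2
    · rintro ⟨a, ⟨h1, h2⟩, rfl⟩
      rw [hmemD, hmemD, hσ] at h2
      exact ⟨h1, h2⟩
  have hclose := all_close (s := 29 * r ^ 2) (D := dset G) (O := opn T') (π := π) (by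
      intro a ha b hb hab
      rw [mem_coe] at ha hb
      rw [← hπ.inv a (opn_sub T' ha), hab, hπ.inv b (opn_sub T' hb)]) hsp 0 T' hV Subset.rfl hMt
  refine hbad (dset G) (mem_image_of_mem _ (by
    rw [h𝒢, mem_filter, mem_powerset]; exact ⟨g1, g2⟩)) hclose ?_ ?_
  · rw [hD]
    have := Nat.div_mul_le_self (act T').card 3
    omega
  · rw [hD]
    omega

/-- **The lower bound.** -/
theorem lower' {n : ℕ} (C : Ckt (Fin n × Fin 3))
    (hC : ∀ z, Dyck (untyped z) → (C.eval z = true ↔ Dyck z)) (A : Finset (Fin n × Fin 3))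
    (hA : ∀ v ∈ A, v.2 = 2) (hd : ∀ v ∈ A, C.deg v ≤ 1) (m : ℕ) (hm : 1 ≤ m)
    (hmA : m ^ 4 ≤ A.card ^ 3) (hN : 700 ≤ Nat.log 2 A.card) :
    (Nat.log 2 A.card) ^ 2 ≤ 312 *
      ((nest A m (C.tree C.out) + 1) * (Nat.log 2 ((heavy A m C).card + 1) + 1)) := by
  obtain ⟨N, hN'⟩ : ∃ N, N = Nat.log 2 A.card := ⟨_, rfl⟩
  obtain ⟨Q, hQ⟩ : ∃ Q, Q = (nest A m (C.tree C.out) + 1) *
    (Nat.log 2 ((heavy A m C).card + 1) + 1) := ⟨_, rfl⟩
  rw [← hN'] at hN ⊢
  rw [← hQ]
  obtain ⟨r, hr⟩ : ∃ r, r = (N - 4) / 84 := ⟨_, rfl⟩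
  have hr8 : 8 ≤ r := by omega
  have hAne : A.card ≠ 0 := by
    intro h0
    rw [h0] at hN'
    simp at hN'
    omega
  have hAle : 2 ^ N ≤ A.card := by rw [hN']; exact Nat.pow_log_le_self 2 hAne
  have hAlt : A.card < 2 ^ (N + 1) := by rw [hN']; exact Nat.lt_pow_succ_log_self (by norm_num) _
  have hmr : m < 2 ^ (72 * r) := by
    by_contra h
    push Not at h
    have h1 : (2 ^ (72 * r)) ^ 4 ≤ m ^ 4 := Nat.pow_le_pow_left h 4
    have h2 : (2 ^ (72 * r)) ^ 4 = 2 ^ (288 * r) := by rw [← pow_mul]; congr 1; ring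
    have h4 : A.card ^ 3 < (2 ^ (N + 1)) ^ 3 := Nat.pow_lt_pow_left hAlt (by norm_num)
    have h5 : (2 ^ (N + 1)) ^ 3 = 2 ^ (3 * (N + 1)) := by rw [← pow_mul]; congr 1; ring
    have h6 : 2 ^ (3 * (N + 1)) ≤ 2 ^ (288 * r) := Nat.pow_le_pow_right (by norm_num) (by omega)
    omega
  have hraw := lower_raw C hC A hA hd r m (by omega) hm hmr
    ((Nat.pow_le_pow_right (by norm_num) (by omega)).trans hAle)
  have hlt : ((heavy A m C).card + 1) ^ (nest A m (C.tree C.out) + 1) ≤ 2 ^ Q := by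
    rw [hQ, mul_comm, pow_mul]
    apply Nat.pow_le_pow_left
    exact (Nat.lt_pow_succ_log_self (by norm_num) _).le
  have h3 : 29 * r ^ 2 < Q := (Nat.pow_lt_pow_iff_right (by norm_num)).1 (hraw.trans_le hlt)
  have h4 : N ≤ 95 * r := by omega
  have h5 : N ^ 2 ≤ (95 * r) ^ 2 := Nat.pow_le_pow_left h4 2
  have h6 : (95 * r) ^ 2 = 9025 * r ^ 2 := by ring
  omega

/-- Every AND gate has an input that is a literal or a constant. -/
def Skew {I : Type} (C : Ckt I) : Prop :=
  ∀ g a b, C.kind g = Kind.and a b → ∃ c, (c = a ∨ c = b) ∧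
    ((∃ v β, C.kind c = Kind.lit v β) ∨ ∃ β, C.kind c = Kind.cst β)

theorem Skew.nest_eq {I : Type} [DecidableEq I] {C : Ckt I} (h : Skew C) (A : Finset I) :
    ∀ (N : ℕ) (g : C.G), C.rank g < N → nest A 1 (C.tree g) = 0 := by
  intro N
  induction N with
  | zero => intro g hg; exact absurd hg (Nat.not_lt_zero _)
  | succ N ih =>
    intro g hN
    cases hk : C.kind g with
    | lit v b => rw [tree_lit C g v b hk]; rfl
    | cst b => rw [tree_cst C g b hk]; rfl
    | or a b =>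
      have hlt := C.or_lt g a b hk
      rw [tree_or C _ _ _ hk]
      simp only [nest]
      rw [ih a (by omega), ih b (by omega)]
      rfl
    | and a b =>
      have hlt := C.and_lt g a b hk
      rw [tree_and C _ _ _ hk]
      simp only [nest]
      rw [ih a (by omega), ih b (by omega)]
      have hsmall : ∀ c, ((∃ v β, C.kind c = Kind.lit v β) ∨ ∃ β, C.kind c = Kind.cst β) →
          (reads A (C.tree c)).card ≤ 1 := by
        rintro c (⟨v, β, hc⟩ | ⟨β, hc⟩)
        · rw [tree_lit C c v β hc, card_le_one]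
          intro i hi j hj
          rw [reads, mem_filter] at hi hj
          simp only [Fm.deg] at hi hj
          by_cases h1 : v = i
          · by_cases h2 : v = j
            · rw [← h1, ← h2]
            · rw [if_neg h2] at hj; omega
          · rw [if_neg h1] at hi; omega
        · rw [tree_cst C c β hc]
          simp [reads, Fm.deg]
      obtain ⟨c, hc, hc'⟩ := h g a b hk
      have h1 := hsmall c hc'
      have h2 : ¬ (1 < (reads A (C.tree a)).card ∧ 1 < (reads A (C.tree b)).card) := by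
        rintro ⟨h3, h4⟩
        rcases hc with rfl | rfl <;> omega
      rw [if_neg h2]
      rfl

/-- **Skew circuits** (nondeterministic branching programs). -/
theorem lower_skew {n : ℕ} (C : Ckt (Fin n × Fin 3))
    (hC : ∀ z, Dyck (untyped z) → (C.eval z = true ↔ Dyck z)) (hd : ∀ i, C.deg (i, 2) ≤ 1)
    (hs : Skew C) (hn : 700 ≤ Nat.log 2 n) :
    (Nat.log 2 n) ^ 2 ≤ 312 * (Nat.log 2 (C.size + 1) + 1) := by
  classical
  set A : Finset (Fin n × Fin 3) := univ.image fun i : Fin n => (i, (2 : Fin 3)) with hA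
  have hAc : A.card = n := by
    rw [hA, card_image_of_injective _ (fun a b h => congrArg Prod.fst h), card_univ,
      Fintype.card_fin]
  have hn1 : 1 ≤ n := by
    by_contra h
    have : n = 0 := by omega
    subst this
    simp at hn
  have h1 := lower' C hC A (by
    intro v hv
    rw [hA, mem_image] at hv
    obtain ⟨i, _, rfl⟩ := hv
    rfl) (by
    intro v hv
    rw [hA, mem_image] at hv
    obtain ⟨i, _, rfl⟩ := hv
    exact hd i) 1 le_rfl (by rw [hAc, one_pow]; exact Nat.one_le_pow _ _ hn1) (by rw [hAc]; exact hn)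
  rw [hAc, hs.nest_eq A _ C.out (Nat.lt_succ_self _), zero_add, one_mul] at h1
  refine h1.trans (Nat.mul_le_mul_left _ (Nat.succ_le_succ (Nat.log_mono_right ?_)))
  refine Nat.succ_le_succ ?_
  exact (card_filter_le _ _).trans (by rw [card_univ]; exact le_rfl)

/-- **The lower bound**, all sizes. -/
theorem lower {n : ℕ} (C : Ckt (Fin n × Fin 3))
    (hC : ∀ z, Dyck (untyped z) → (C.eval z = true ↔ Dyck z)) (A : Finset (Fin n × Fin 3))
    (hA : ∀ v ∈ A, v.2 = 2) (hd : ∀ v ∈ A, C.deg v ≤ 1) (m : ℕ) (hm : 1 ≤ m)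
    (hmA : m ^ 4 ≤ A.card ^ 3) :
    (Nat.log 2 A.card) ^ 2 ≤ 2 ^ 19 *
      ((nest A m (C.tree C.out) + 1) * (Nat.log 2 ((heavy A m C).card + 1) + 1)) := by
  obtain ⟨N, hN⟩ : ∃ N, N = Nat.log 2 A.card := ⟨_, rfl⟩
  obtain ⟨Q, hQ⟩ : ∃ Q, Q = (nest A m (C.tree C.out) + 1) *
    (Nat.log 2 ((heavy A m C).card + 1) + 1) := ⟨_, rfl⟩
  rw [← hN, ← hQ]
  have hQ1 : 1 ≤ Q := by rw [hQ]; exact Nat.mul_pos (Nat.succ_pos _) (Nat.succ_pos _)
  by_cases hsmall : N < 700
  · have h1 : N ^ 2 ≤ 700 ^ 2 := Nat.pow_le_pow_left hsmall.le 2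
    omega
  · have h1 := lower' C hC A hA hd m hm hmA (by omega)
    rw [← hN, ← hQ] at h1
    omega

end Pool.Agent.TH708.Tre
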